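import Pool.Agent.N693.SSD.Stm

/-!
# Project SS/D/FIN: compact operators are null
-/

set_option autoImplicit false

namespace Pool.Agent.N693.SSD

open Filter Topology
open scoped InnerProductSpace ComplexOrder
open Pool.Agent.H494R3.GT (L2 dl)
open Pool.Agent.N557.QW (lam rgt LG LK cf rc)
open Pool.Agent.N571.SS Pool.Agent.N571.SS.D
open ContinuousLinearMap (adjoint)

noncomputable section

namespace CPN

set_option linter.unusedSectionVars false

variable {G : Type} [Group G]

/-- rank one operators -/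
def R (y z : L2 G) : B G := (innerSL ℂ z).smulRight y

lemma R_ap (y z v : L2 G) : R y z v = ⟪z, v⟫_ℂ • y := rfl

lemma Pg_ap (g : G) (v : L2 G) : Pg g v = v g • (dl g : L2 G) := by
  change ⟪(dl g : L2 G), v⟫_ℂ • (dl g : L2 G) = _
  rw [Pool.Agent.H494R3.GT.inner_dl]

lemma inner_dl' (g : G) (v : L2 G) : ⟪v, (dl g : L2 G)⟫_ℂ = (starRingEnd ℂ) (v g) := by
  rw [← inner_conj_symm, Pool.Agent.H494R3.GT.inner_dl]

lemma Pg_proj (g : G) : star (Pg g) * Pg g = (Pg g : B G) := by
  ext1 v
  refine ext_inner_left ℂ fun w => ?_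
  rw [mul_apply_eq_comp, ContinuousLinearMap.star_eq_adjoint,
    ContinuousLinearMap.adjoint_inner_right, Pg_ap, Pg_ap, inner_smul_left, inner_smul_right,
    inner_smul_right, inner_dl', inner_dl', Pool.Agent.H494R3.GT.dl_apply_self]
  simp
  ring

lemma cs {ω : B G →ₗ[ℂ] ℂ} (h : Om ω) {P : B G} (hP : ω (star P * P) = 0) (T : B G) :
    ω (star T * P) = 0 := by
  by_contra hz
  obtain ⟨z, hzd⟩ : ∃ z, z = ω (star T * P) := ⟨_, rfl⟩
  rw [← hzd] at hz
  have hz' : ω (star P * T) = (starRingEnd ℂ) z := by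
    have := h.adj (star T * P)
    rw [star_mul, star_star] at this
    rw [this, hzd]
  have key : ∀ t : ℝ, 0 ≤ (ω (star T * T)).re - 2 * t * Complex.normSq z := by
    intro t
    obtain ⟨c, hc⟩ : ∃ c : ℂ, c = -(t : ℂ) * (starRingEnd ℂ) z := ⟨_, rfl⟩
    have h1 := h.nonneg (T + c • P)
    have h2 : ω (star (T + c • P) * (T + c • P)) =
        ω (star T * T) + c * z + (starRingEnd ℂ) c * (starRingEnd ℂ) z := by
      rw [star_add, star_smul, add_mul, mul_add, mul_add]
      simp only [smul_mul_assoc, mul_smul_comm, map_add, map_smul, hP, hz', ← hzd, smul_eq_mul,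
        mul_zero, add_zero]
      rfl
    rw [h2] at h1
    have h3 := (Complex.nonneg_iff.1 h1).1
    have h4 : c * z = ((-(t * Complex.normSq z) : ℝ) : ℂ) := by
      rw [hc, mul_assoc, mul_comm ((starRingEnd ℂ) z) z, Complex.mul_conj]
      push_cast
      ring
    have h5 : (starRingEnd ℂ) c * (starRingEnd ℂ) z = ((-(t * Complex.normSq z) : ℝ) : ℂ) := by
      rw [← map_mul, h4, Complex.conj_ofReal]
    rw [h4, h5] at h3
    simp only [Complex.add_re, Complex.ofReal_re] at h3
    linarith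
  have hpos : 0 < Complex.normSq z := Complex.normSq_pos.2 hz
  have h6 := key (((ω (star T * T)).re + 1) / (2 * Complex.normSq z))
  have h7 : 2 * (((ω (star T * T)).re + 1) / (2 * Complex.normSq z)) * Complex.normSq z =
      (ω (star T * T)).re + 1 := by
    field_simp
  linarith

lemma null_dl {ω : B G →ₗ[ℂ] ℂ} (h : Om ω) (y : L2 G) (g : G) : ω (R y (dl g)) = 0 := by
  have h1 : R y (dl g) = star (star (R y (dl g))) * Pg g := by
    rw [star_star]
    ext1 v
    rw [mul_apply_eq_comp, Pg_ap, map_smul, R_ap, R_ap,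
      Pool.Agent.H494R3.GT.inner_dl, Pool.Agent.H494R3.GT.inner_dl,
      Pool.Agent.H494R3.GT.dl_apply_self, one_smul]
  rw [h1]
  exact cs h (by rw [Pg_proj]; exact h.null g) _

lemma norm_R (y z : L2 G) : ‖R y z‖ ≤ ‖y‖ * ‖z‖ := by
  refine ContinuousLinearMap.opNorm_le_bound _ (by positivity) fun v => ?_
  rw [R_ap, norm_smul]
  have := norm_inner_le_norm (𝕜 := ℂ) z v
  calc ‖⟪z, v⟫_ℂ‖ * ‖y‖ ≤ (‖z‖ * ‖v‖) * ‖y‖ := by gcongr
    _ = ‖y‖ * ‖z‖ * ‖v‖ := by ring

lemma null_R {ω : B G →ₗ[ℂ] ℂ} (h : Om ω) (y z : L2 G) : ω (R y z) = 0 := by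
  let Φ : L2 G →+ ℂ :=
    { toFun := fun z => ω (R y z)
      map_zero' := by
        have : R y (0 : L2 G) = 0 := by ext1 v; rw [R_ap]; simp
        rw [this, map_zero]
      map_add' := fun z z' => by
        have : R y (z + z') = R y z + R y z' := by
          ext1 v
          rw [add_apply, R_ap, R_ap, R_ap, inner_add_left, add_smul]
        rw [this, map_add] }
  have hΦ : Continuous Φ := AddMonoidHomClass.continuous_of_bound Φ ‖y‖ fun z =>
    (h.norm _).trans (norm_R y z)
  have hs : HasSum (fun g => z g • (dl g : L2 G)) z := by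
    have h1 := Pool.Agent.H812R3.KP.hasSum_dl z
    exact h1
  have h2 := hs.map Φ hΦ
  have h3 : (Φ ∘ fun g => z g • (dl g : L2 G)) = fun _ => 0 := by
    funext g
    change ω (R y (z g • (dl g : L2 G))) = 0
    have h4 : R y (z g • (dl g : L2 G)) = (starRingEnd ℂ) (z g) • R y (dl g) := by
      ext1 v
      rw [smul_apply, R_ap, R_ap, inner_smul_left, smul_smul]
    rw [h4, map_smul, null_dl h, smul_zero]
  rw [h3] at h2
  exact h2.unique hasSum_zero

/-- projection on the coordinates in `F` -/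
def Q (F : Finset G) : B G := ∑ g ∈ F, Pg g

lemma Q_ap (F : Finset G) (v : L2 G) : Q F v = ∑ g ∈ F, v g • (dl g : L2 G) := by
  rw [Q, sum_apply]
  exact Finset.sum_congr rfl fun g _ => Pg_ap g v

lemma Q_coord (F : Finset G) (v : L2 G) {g : G} (hg : g ∈ F) : (v - Q F v) g = 0 := by
  classical
  rw [← Pool.Agent.H494R3.GT.inner_dl g (v - Q F v), inner_sub_right, Q_ap, inner_sum,
    Pool.Agent.H494R3.GT.inner_dl]
  simp only [inner_smul_right, Pool.Agent.H494R3.GT.dl_inner]
  simp [hg]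

lemma Q_norm (F : Finset G) (v : L2 G) : ‖v - Q F v‖ ≤ ‖v‖ := by
  have h1 : ⟪v - Q F v, Q F v⟫_ℂ = 0 := by
    conv_lhs => rw [Q_ap F v]
    rw [inner_sum]
    refine Finset.sum_eq_zero fun g hg => ?_
    rw [inner_smul_right, inner_dl', ← Q_ap F v, Q_coord F v hg]
    simp
  have h2 := norm_add_sq_eq_norm_sq_add_norm_sq_of_inner_eq_zero (𝕜 := ℂ) (v - Q F v) (Q F v) h1
  rw [sub_add_cancel] at h2
  nlinarith [norm_nonneg (v - Q F v), norm_nonneg v, norm_nonneg (Q F v)]

end CPN

open CPN in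
theorem s_cpn : S_CPN := by
  intro G _ ω h H _ _ _ E hE b
  have key : ∀ ε : ℝ, 0 < ε → ‖ω (star b * (adjoint E).comp E * b)‖ ≤ ε * (‖b‖ * ‖E‖ * ‖b‖) := by
    intro ε hε
    obtain ⟨F, hF⟩ := hE ε hε
    have h1 : star b * (adjoint E).comp E * b =
        ∑ g ∈ F, R ((star b * (adjoint E).comp E) (dl g)) (star b (dl g)) +
          star b * (adjoint E).comp E * (b - Q F * b) := by
      have h2 : star b * (adjoint E).comp E * (Q F * b) =
          ∑ g ∈ F, R ((star b * (adjoint E).comp E) (dl g)) (star b (dl g)) := by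
        ext1 v
        change (star b * (adjoint E).comp E) (Q F (b v)) = _
        rw [Q_ap, map_sum, sum_apply]
        refine Finset.sum_congr rfl fun g _ => ?_
        rw [map_smul, R_ap, ContinuousLinearMap.star_eq_adjoint,
          ContinuousLinearMap.adjoint_inner_left, Pool.Agent.H494R3.GT.inner_dl]
      rw [← h2, ← mul_add]
      congr 1
      abel
    rw [h1, map_add, map_sum, Finset.sum_eq_zero (fun g _ => null_R h _ _), zero_add]
    refine (h.norm _).trans (ContinuousLinearMap.opNorm_le_bound _ (by positivity) fun v => ?_)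
    have h3 : (star b * (adjoint E).comp E * (b - Q F * b)) v =
        star b (adjoint E (E (b v - Q F (b v)))) := rfl
    rw [h3]
    calc ‖star b (adjoint E (E (b v - Q F (b v))))‖
        ≤ ‖star b‖ * ‖adjoint E (E (b v - Q F (b v)))‖ := ContinuousLinearMap.le_opNorm _ _
      _ ≤ ‖star b‖ * (‖adjoint E‖ * ‖E (b v - Q F (b v))‖) := by
          gcongr; exact ContinuousLinearMap.le_opNorm _ _
      _ ≤ ‖star b‖ * (‖adjoint E‖ * (ε * ‖b v - Q F (b v)‖)) := by
          gcongr; exact hF _ fun g hg => Q_coord F _ hg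
      _ ≤ ‖star b‖ * (‖adjoint E‖ * (ε * (‖b‖ * ‖v‖))) := by
          gcongr; exact (Q_norm F _).trans (ContinuousLinearMap.le_opNorm _ _)
      _ = ε * (‖b‖ * ‖E‖ * ‖b‖) * ‖v‖ := by
          have hb : ‖star b‖ = ‖b‖ := by
            rw [ContinuousLinearMap.star_eq_adjoint]
            exact LinearIsometryEquiv.norm_map _ _
          have hE' : ‖adjoint E‖ = ‖E‖ := LinearIsometryEquiv.norm_map _ _
          rw [hb, hE']
          ring
  have h0 : ‖ω (star b * (adjoint E).comp E * b)‖ ≤ 0 := by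
    by_contra hcon
    push Not at hcon
    set N := ‖ω (star b * (adjoint E).comp E * b)‖ with hN
    have hK : 0 ≤ ‖b‖ * ‖E‖ * ‖b‖ := by positivity
    have h5 := key (N / (2 * (‖b‖ * ‖E‖ * ‖b‖ + 1))) (by positivity)
    have h6 : N / (2 * (‖b‖ * ‖E‖ * ‖b‖ + 1)) * (‖b‖ * ‖E‖ * ‖b‖) ≤ N / 2 := by
      rw [div_mul_eq_mul_div, div_le_div_iff₀ (by positivity) (by norm_num)]
      nlinarith
    linarith
  exact norm_le_zero_iff.1 h0

end

end Pool.Agent.N693.SSD
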