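import Pool.Agent.N693.SSD.Stm

/-!
# Project SS/D, FIN: dominated convergence (DC)
-/

set_option autoImplicit false

namespace Pool.Agent.N693.SSD

open Filter Topology
open scoped InnerProductSpace ComplexOrder
open Pool.Agent.H494R3.GT (L2 dl)
open Pool.Agent.N557.QW (lam rgt LG LK cf rc)
open Pool.Agent.N571.SS Pool.Agent.N571.SS.D
open ContinuousLinearMap (adjoint)

namespace DC

open Pool.Agent.H494R3.GT (inner_dl dl_inner)

variable {G : Type} [Group G]

theorem mf_coord (s : Finset G) (f : G → ℝ) (hf : ∀ g, g ∉ s → f g = 0) (x : B G) (a : G) :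
    ((mf s f x) (dl 1) : L2 G) a = (f a : ℂ) * (x (dl 1) : L2 G) a := by
  classical
  have hcf : ∀ g, cf x g = (x (dl 1) : L2 G) g := fun g => inner_dl g _
  rw [← inner_dl a ((mf s f x) (dl 1))]
  unfold mf
  rw [ContinuousLinearMap.sum_apply, inner_sum]
  have h1 : ∀ g ∈ s, inner ℂ (dl a) ((((f g : ℂ) * cf x g) • lam g) (dl 1) : L2 G) =
      if a = g then (f g : ℂ) * cf x g else 0 := by
    intro g _
    rw [ContinuousLinearMap.smul_apply, Pool.Agent.N557.QW.lam_dl, mul_one, inner_smul_right,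
      dl_inner]
    split_ifs <;> simp
  rw [Finset.sum_congr rfl h1, Finset.sum_ite_eq]
  split_ifs with ha
  · rw [hcf]
  · rw [hf a ha]
    simp

theorem nsq (s : Finset G) (f : G → ℝ) (hf : ∀ g, g ∉ s → f g = 0) (x : B G) :
    ‖(mf s f x - x) (dl 1)‖ ^ 2 = ∑' a, |f a - 1| ^ 2 * ‖(x (dl 1) : L2 G) a‖ ^ 2 := by
  rw [Pool.Agent.H812R3.KP.norm_sq_eq]
  refine tsum_congr fun a => ?_
  have e : ((mf s f x - x) (dl 1) : L2 G) a = ((f a - 1 : ℝ) : ℂ) * (x (dl 1) : L2 G) a := by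
    rw [ContinuousLinearMap.sub_apply, lp.coeFn_sub, Pi.sub_apply, mf_coord s f hf x a]
    push_cast
    ring
  rw [e, norm_mul, Complex.norm_real, Real.norm_eq_abs, mul_pow]

end DC

open DC in
theorem s_dc : S_DC := by
  intro G _ f s h2 hs hl x
  have hS := Pool.Agent.H812R3.KP.summable_sq (x (dl 1))
  have h0 : Tendsto (fun k => ‖(mf (s k) (f k) x - x) (dl 1)‖ ^ 2) atTop (𝓝 0) := by
    have e : (fun k => ‖(mf (s k) (f k) x - x) (dl 1)‖ ^ 2) =
        fun k => ∑' a, |f k a - 1| ^ 2 * ‖(x (dl 1) : L2 G) a‖ ^ 2 := by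
      funext k
      exact nsq (s k) (f k) (hs k) x
    rw [e]
    have h3 : Tendsto (fun k => ∑' a, |f k a - 1| ^ 2 * ‖(x (dl 1) : L2 G) a‖ ^ 2) atTop
        (𝓝 (∑' a : G, (0 : ℝ))) := by
      refine tendsto_tsum_of_dominated_convergence
        (bound := fun a => 9 * ‖(x (dl 1) : L2 G) a‖ ^ 2) (hS.mul_left 9) ?_ ?_
      · intro a
        have h4 : Tendsto (fun k => |f k a - 1| ^ 2 * ‖(x (dl 1) : L2 G) a‖ ^ 2) atTop
            (𝓝 (|(1 : ℝ) - 1| ^ 2 * ‖(x (dl 1) : L2 G) a‖ ^ 2)) :=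
          (((hl a).sub_const 1).abs.pow 2).mul_const _
        simpa using h4
      · refine Eventually.of_forall fun k a => ?_
        rw [Real.norm_eq_abs, abs_of_nonneg (by positivity)]
        refine mul_le_mul_of_nonneg_right ?_ (by positivity)
        have h5 : |f k a - 1| ≤ 3 := by
          have := h2 k a
          rw [abs_le] at this ⊢
          constructor <;> linarith [this.1, this.2]
        calc |f k a - 1| ^ 2 ≤ 3 ^ 2 := pow_le_pow_left₀ (abs_nonneg _) h5 2
          _ = 9 := by norm_num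
    simpa using h3
  have h6 := (Real.continuous_sqrt.tendsto 0).comp h0
  rw [Real.sqrt_zero] at h6
  refine h6.congr fun k => ?_
  show √(‖(mf (s k) (f k) x - x) (dl 1)‖ ^ 2) = _
  rw [Real.sqrt_sq (norm_nonneg _)]

end Pool.Agent.N693.SSD
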