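import Pool.Agent.N693.SSD.Stm
import Pool.Agent.N571.SS.D.SM

/-!
# Project SS/D/FIN, the piece MFN: the norm of the multiplier (helper81)
-/

set_option autoImplicit false

namespace Pool.Agent.N693.SSD

open Filter Topology
open scoped InnerProductSpace ComplexOrder
open Pool.Agent.H494R3.GT (L2 dl)
open Pool.Agent.N557.QW (lam rgt LG LK cf rc)
open Pool.Agent.N571.SS Pool.Agent.N571.SS.D
open ContinuousLinearMap (adjoint)

namespace MFNaux

open Pool.Agent.H494R3.GT (dl_inner mul_ap op_ext_inner)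
open Pool.Agent.N557.QW (lam_dl mem_LG_iff)

variable {G : Type} [Group G]

theorem mf_ent {s : Finset G} {f : G → ℝ} (hf : ∀ g, g ∉ s → f g = 0) (x : B G) (a c : G) :
    ⟪dl a, mf s f x (dl c)⟫_ℂ = (f (a * c⁻¹) : ℂ) * cf x (a * c⁻¹) := by
  classical
  have e1 : mf s f x (dl c) = ∑ g ∈ s, ((f g : ℂ) * cf x g) • (dl (g * c) : L2 G) := by
    unfold mf
    rw [ContinuousLinearMap.sum_apply]
    refine Finset.sum_congr rfl fun g _ => ?_
    rw [ContinuousLinearMap.smul_apply, lam_dl]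
  rw [e1, inner_sum]
  have e2 : ∀ g ∈ s, ⟪dl a, ((f g : ℂ) * cf x g) • (dl (g * c) : L2 G)⟫_ℂ =
      if g = a * c⁻¹ then (f g : ℂ) * cf x g else 0 := by
    intro g _
    rw [inner_smul_right, dl_inner]
    by_cases h : g = a * c⁻¹
    · rw [if_pos h, if_pos (by rw [h]; group), mul_one]
    · rw [if_neg h, if_neg (fun h' => h (by rw [h']; group)), mul_zero]
  rw [Finset.sum_congr rfl e2, Finset.sum_ite_eq']
  split_ifs with h
  · rfl
  · rw [hf _ h, Complex.ofReal_zero, zero_mul]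

end MFNaux

open MFNaux in
open Pool.Agent.H494R3.GT (dl_inner mul_ap op_ext_inner) in
open Pool.Agent.N557.QW (lam_dl mem_LG_iff) in
theorem s_mfn : S_MFN := by
  intro G _ f s C hf hHS x hx
  obtain ⟨K, i1, i2, i3, ξ, η, hin, hnm⟩ := hHS.ex
  obtain ⟨Z', hn, he⟩ := t_sm G K (fun t => ξ t⁻¹) (fun t => η t⁻¹) C (fun t => hnm _) x
  have e : mf s f x = Z' := by
    refine op_ext_inner fun a c => ?_
    rw [mf_ent hf, he, hin, inv_inv, mem_LG_iff.1 hx]
  rw [e]
  exact hn

end Pool.Agent.N693.SSD
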