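import Pool.Agent.N693.SSD.Stm

set_option autoImplicit false

namespace Pool.Agent.N693.SSD

open Filter Topology
open scoped InnerProductSpace ComplexOrder
open Pool.Agent.H494R3.GT (L2 dl)
open Pool.Agent.N557.QW (lam rgt LG LK cf rc)
open Pool.Agent.N571.SS Pool.Agent.N571.SS.D
open ContinuousLinearMap (adjoint)

namespace OMx

noncomputable section

/-- a bounded sequence converges along the hyperfilter -/
theorem lim_ex (s : ℕ → ℂ) (R : ℝ) (h : ∀ n, ‖s n‖ ≤ R) :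
    ∃ z : ℂ, Tendsto s (hyperfilter ℕ : Filter ℕ) (𝓝 z) := by
  have hc : IsCompact (Metric.closedBall (0 : ℂ) R) := isCompact_closedBall _ _
  obtain ⟨z, -, hz⟩ := hc.ultrafilter_le_nhds ((hyperfilter ℕ).map s) (by
    refine Filter.le_principal_iff.2 (Filter.mem_map.2 (Filter.univ_mem' fun n => ?_))
    show s n ∈ Metric.closedBall (0 : ℂ) R
    rw [mem_closedBall_zero_iff]
    exact h n)
  exact ⟨z, hz⟩

theorem hyp_le : (hyperfilter ℕ : Filter ℕ) ≤ atTop := Nat.hyperfilter_le_atTop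

variable {K : Type} [NormedAddCommGroup K] [InnerProductSpace ℂ K] [CompleteSpace K]

theorem inner_star_mul (A S : K →L[ℂ] K) (v w : K) :
    ⟪v, (star A * S) w⟫_ℂ = ⟪A v, S w⟫_ℂ := by
  rw [mul_def, ContinuousLinearMap.comp_apply, ContinuousLinearMap.star_eq_adjoint,
    ContinuousLinearMap.adjoint_inner_right]
where
  mul_def {A B : K →L[ℂ] K} : A * B = A.comp B := rfl

theorem close_inner (S : K →L[ℂ] K) (v w : K) :
    ‖⟪v, S v⟫_ℂ - ⟪w, S w⟫_ℂ‖ ≤ ‖v - w‖ * (‖S‖ * (‖v‖ + ‖w‖)) := by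
  have e : ⟪v, S v⟫_ℂ - ⟪w, S w⟫_ℂ = ⟪v - w, S v⟫_ℂ + ⟪w, S (v - w)⟫_ℂ := by
    rw [inner_sub_left, map_sub, inner_sub_right]
    ring
  rw [e]
  calc ‖⟪v - w, S v⟫_ℂ + ⟪w, S (v - w)⟫_ℂ‖ ≤ ‖⟪v - w, S v⟫_ℂ‖ + ‖⟪w, S (v - w)⟫_ℂ‖ :=
        norm_add_le _ _
    _ ≤ ‖v - w‖ * (‖S‖ * ‖v‖) + ‖w‖ * (‖S‖ * ‖v - w‖) := by
        refine add_le_add ?_ ?_
        · exact (norm_inner_le_norm _ _).trans
            (mul_le_mul_of_nonneg_left (S.le_opNorm _) (norm_nonneg _))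
        · exact (norm_inner_le_norm _ _).trans
            (mul_le_mul_of_nonneg_left (S.le_opNorm _) (norm_nonneg _))
    _ = ‖v - w‖ * (‖S‖ * (‖v‖ + ‖w‖)) := by ring

theorem tau_one (G : Type) [Group G] : tau (1 : B G) = 1 := by
  have h1 : (1 : B G) (dl (1 : G)) = dl (1 : G) := rfl
  unfold tau
  rw [h1, inner_self_eq_norm_sq_to_K]
  have h2 : ‖(dl (1 : G) : L2 G)‖ = 1 := by
    first
      | exact Pool.Agent.H494R3.GT.norm_dl _
      | exact Pool.Agent.H812R3.KP.norm_dl _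
  rw [h2]
  simp

end

end OMx

open OMx in
theorem s_om : S_OM := by
  intro G _ hB ξ hV
  -- the norms are bounded
  have h1 : Tendsto (fun n => ⟪ξ n, (1 : B (G × G)) (ξ n)⟫_ℂ) atTop (𝓝 1) := by
    have := hV.left 1 (one_mem (LG G))
    rw [hB.a1_one, tau_one] at this
    exact this
  have h2 : Tendsto (fun n => ‖ξ n‖ ^ 2) atTop (𝓝 1) := by
    have h3 := (Complex.continuous_re.tendsto _).comp h1
    refine (h3.congr fun n => ?_).trans (by simp)
    show (⟪ξ n, ξ n⟫_ℂ).re = ‖ξ n‖ ^ 2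
    rw [inner_self_eq_norm_sq_to_K]
    norm_cast
  obtain ⟨M, hM⟩ := h2.bddAbove_range
  have hM' : ∀ n, ‖ξ n‖ ^ 2 ≤ M := fun n => hM ⟨n, rfl⟩
  have hbd : ∀ (S : B (G × G)) n, ‖⟪ξ n, S (ξ n)⟫_ℂ‖ ≤ ‖S‖ * ‖ξ n‖ ^ 2 := by
    intro S n
    calc ‖⟪ξ n, S (ξ n)⟫_ℂ‖ ≤ ‖ξ n‖ * ‖S (ξ n)‖ := norm_inner_le_norm _ _
      _ ≤ ‖ξ n‖ * (‖S‖ * ‖ξ n‖) := mul_le_mul_of_nonneg_left (S.le_opNorm _) (norm_nonneg _)
      _ = ‖S‖ * ‖ξ n‖ ^ 2 := by ring
  have hex : ∀ T : B G, ∃ z : ℂ,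
      Tendsto (fun n => ⟪ξ n, a1 T (ξ n)⟫_ℂ) (hyperfilter ℕ : Filter ℕ) (𝓝 z) := fun T =>
    lim_ex _ (‖a1 T‖ * M) fun n =>
      (hbd _ n).trans (mul_le_mul_of_nonneg_left (hM' n) (norm_nonneg _))
  choose w hw using hex
  have uniq : ∀ (T : B G) (z : ℂ),
      Tendsto (fun n => ⟪ξ n, a1 T (ξ n)⟫_ℂ) (hyperfilter ℕ : Filter ℕ) (𝓝 z) → w T = z :=
    fun T z h => tendsto_nhds_unique (hw T) h
  let ω : B G →ₗ[ℂ] ℂ :=
    { toFun := w
      map_add' := fun x y => uniq _ _ (((hw x).add (hw y)).congr fun n => by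
        rw [hB.a1_add, ContinuousLinearMap.add_apply, inner_add_right])
      map_smul' := fun c x => uniq _ _ (((hw x).const_mul c).congr fun n => by
        rw [hB.a1_smul, ContinuousLinearMap.smul_apply, inner_smul_right]) }
  have hω : ∀ T, ω T = w T := fun T => rfl
  refine ⟨ω, ?_, ?_⟩
  · constructor
    · intro T
      rw [hω]
      refine ge_of_tendsto' (hw (star T * T)) fun n => ?_
      rw [hB.a1_mul, hB.a1_star, inner_star_mul, inner_self_eq_norm_sq_to_K]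
      positivity
    · rw [hω]
      refine uniq _ _ ?_
      rw [hB.a1_one]
      exact h1.mono_left hyp_le
    · intro T
      rw [hω, hω]
      refine uniq _ _ ?_
      have h3 := (Complex.continuous_conj.tendsto (w T)).comp (hw T)
      refine h3.congr fun n => ?_
      show (starRingEnd ℂ) ⟪ξ n, a1 T (ξ n)⟫_ℂ = _
      rw [hB.a1_star, ContinuousLinearMap.star_eq_adjoint,
        ContinuousLinearMap.adjoint_inner_right, inner_conj_symm]
    · intro T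
      rw [hω]
      have h3 := (hw T).norm
      have h4 : Tendsto (fun n => ‖T‖ * ‖ξ n‖ ^ 2) (hyperfilter ℕ : Filter ℕ) (𝓝 (‖T‖ * 1)) :=
        (h2.mono_left hyp_le).const_mul _
      rw [mul_one] at h4
      refine le_of_tendsto_of_tendsto' h3 h4 fun n => ?_
      exact (hbd _ n).trans (mul_le_mul_of_nonneg_right (hB.a1_norm T) (by positivity))
    · intro x hx
      rw [hω]
      exact uniq _ _ ((hV.left x hx).mono_left hyp_le)
    · intro x hx
      rw [hω]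
      exact uniq _ _ ((hV.right x hx).mono_left hyp_le)
    · intro g
      rw [hω]
      refine uniq _ _ ?_
      refine Tendsto.mono_left ?_ hyp_le
      refine squeeze_zero_norm (a := fun n => √M * ‖a1 (Pg g) (ξ n)‖) (fun n => ?_) ?_
      · refine (norm_inner_le_norm _ _).trans (mul_le_mul_of_nonneg_right ?_ (norm_nonneg _))
        exact Real.le_sqrt_of_sq_le (hM' n)
      · have := (hV.null g).const_mul (√M)
        rwa [mul_zero] at this
  · rintro u ⟨Q, hQ, hQT, hlim⟩ T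
    rw [hω, hω]
    -- the difference tends to zero
    have hξ : ∀ n, ‖ξ n‖ ≤ √M := fun n => Real.le_sqrt_of_sq_le (hM' n)
    have h3 : Tendsto (fun n => ⟪a1 u (ξ n), a1 T (a1 u (ξ n))⟫_ℂ -
        ⟪a1 (Rm u) (Q (ξ n)), a1 T (a1 (Rm u) (Q (ξ n)))⟫_ℂ) atTop (𝓝 0) := by
      refine squeeze_zero_norm (a := fun n => ‖a1 u (ξ n) - a1 (Rm u) (Q (ξ n))‖ *
        (‖a1 T‖ * (‖a1 u‖ * √M + ‖a1 (Rm u)‖ * (‖Q‖ * √M)))) (fun n => ?_) ?_
      · refine (close_inner _ _ _).trans (mul_le_mul_of_nonneg_left ?_ (norm_nonneg _))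
        refine mul_le_mul_of_nonneg_left (add_le_add ?_ ?_) (norm_nonneg _)
        · exact ((a1 u).le_opNorm _).trans (mul_le_mul_of_nonneg_left (hξ n) (norm_nonneg _))
        · refine ((a1 (Rm u)).le_opNorm _).trans (mul_le_mul_of_nonneg_left ?_ (norm_nonneg _))
          exact (Q.le_opNorm _).trans (mul_le_mul_of_nonneg_left (hξ n) (norm_nonneg _))
      · have := hlim.mul_const (‖a1 T‖ * (‖a1 u‖ * √M + ‖a1 (Rm u)‖ * (‖Q‖ * √M)))
        rwa [zero_mul] at this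
    have e1 : ∀ n, ⟪ξ n, a1 (star u * T * u) (ξ n)⟫_ℂ =
        ⟪a1 u (ξ n), a1 T (a1 u (ξ n))⟫_ℂ := by
      intro n
      rw [mul_assoc, hB.a1_mul, hB.a1_star, inner_star_mul, hB.a1_mul]
      rfl
    have e2 : ∀ n, ⟪ξ n, a1 (star (Rm u) * T * Rm u) (ξ n)⟫_ℂ =
        ⟪a1 (Rm u) (Q (ξ n)), a1 T (a1 (Rm u) (Q (ξ n)))⟫_ℂ := by
      intro n
      have h5 : ⟪a1 (Rm u) (Q (ξ n)), a1 T (a1 (Rm u) (Q (ξ n)))⟫_ℂ =
          ⟪Q (ξ n), a1 (star (Rm u) * T * Rm u) (Q (ξ n))⟫_ℂ := by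
        rw [mul_assoc, hB.a1_mul, hB.a1_star, inner_star_mul, hB.a1_mul]
        rfl
      have h6 : a1 (star (Rm u) * T * Rm u) (Q (ξ n)) =
          Q (a1 (star (Rm u) * T * Rm u) (ξ n)) := by
        have := congrArg (fun S : B (G × G) => S (ξ n)) (hQT (star (Rm u) * T * Rm u))
        exact this.symm
      rw [h5, h6, ← inner_star_mul, hQ]
      rfl
    have h4 : Tendsto (fun n => ⟪ξ n, a1 (star u * T * u) (ξ n)⟫_ℂ)
        (hyperfilter ℕ : Filter ℕ) (𝓝 (0 + w (star (Rm u) * T * Rm u))) := by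
      refine ((h3.mono_left hyp_le).add (hw (star (Rm u) * T * Rm u))).congr fun n => ?_
      rw [e1, e2]
      ring
    rw [zero_add] at h4
    exact uniq _ _ h4

end Pool.Agent.N693.SSD
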