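import Pool.Agent.N693.SSD.Stm

/-!
# Project SS/D/FIN: compression of the left multiplications (OPC, by helper324)
-/

set_option autoImplicit false

namespace Pool.Agent.N693.SSD

open Filter Topology
open scoped InnerProductSpace ComplexOrder
open Pool.Agent.H494R3.GT (L2 dl)
open Pool.Agent.N557.QW (lam rgt LG LK cf rc)
open Pool.Agent.N571.SS Pool.Agent.N571.SS.D
open ContinuousLinearMap (adjoint)

noncomputable section

namespace OPC

open Pool.Agent.H494R3.GT (inner_dl op_ext_inner vec_ext dl_apply_self dl_apply_ne)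
open Pool.Agent.N557.QW (mem_LG_iff lam_dl)
open Pool.Agent.H812R3.KP (norm_sq_eq summable_sq mem_of_summable amp_inj pull pull_apply amp
  amp_apply)

/-! ### `Cp` -/

section

variable {X H K : Type} [NormedAddCommGroup H] [InnerProductSpace ℂ H] [NormedAddCommGroup K]
  [InnerProductSpace ℂ K]

theorem cp_comp {E : L2 X →L[ℂ] H} (hE : Cp E) (A : H →L[ℂ] K) : Cp (A.comp E) := by
  intro ε hε
  have hA : 0 < ‖A‖ + 1 := by positivity
  obtain ⟨F, hF⟩ := hE (ε / (‖A‖ + 1)) (by positivity)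
  refine ⟨F, fun ζ hζ => ?_⟩
  have h1 := hF ζ hζ
  calc ‖A.comp E ζ‖ ≤ ‖A‖ * ‖E ζ‖ := A.le_opNorm _
    _ ≤ (‖A‖ + 1) * (ε / (‖A‖ + 1) * ‖ζ‖) := by gcongr; linarith
    _ = ε * ‖ζ‖ := by field_simp

theorem cp_zero : Cp (0 : L2 X →L[ℂ] H) := by
  intro ε hε
  refine ⟨∅, fun ζ _ => ?_⟩
  rw [zero_apply, norm_zero]
  positivity

theorem cp_add {E E' : L2 X →L[ℂ] H} (hE : Cp E) (hE' : Cp E') : Cp (E + E') := by
  classical
  intro ε hε
  obtain ⟨F, hF⟩ := hE (ε / 2) (by positivity)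
  obtain ⟨F', hF'⟩ := hE' (ε / 2) (by positivity)
  refine ⟨F ∪ F', fun ζ hζ => ?_⟩
  have h1 := hF ζ fun g hg => hζ g (Finset.mem_union_left _ hg)
  have h2 := hF' ζ fun g hg => hζ g (Finset.mem_union_right _ hg)
  rw [add_apply]
  refine (norm_add_le _ _).trans ?_
  linarith

theorem cp_smul {E : L2 X →L[ℂ] H} (hE : Cp E) (c : ℂ) : Cp (c • E) := by
  have h := cp_comp hE (c • ContinuousLinearMap.id ℂ H)
  have e : (c • ContinuousLinearMap.id ℂ H).comp E = c • E := by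
    ext1 ζ
    rfl
  rwa [e] at h

theorem cp_sum {ι : Type} (s : Finset ι) (E : ι → L2 X →L[ℂ] H) (h : ∀ i ∈ s, Cp (E i)) :
    Cp (∑ i ∈ s, E i) := by
  classical
  induction s using Finset.induction_on with
  | empty => rw [Finset.sum_empty]; exact cp_zero
  | insert a s ha ih =>
    rw [Finset.sum_insert ha]
    exact cp_add (h a (Finset.mem_insert_self a s))
      (ih fun i hi => h i (Finset.mem_insert_of_mem hi))

end

/-! ### diagonal operators -/

theorem norm_le_of {X : Type} {η ζ : L2 X} {M : ℝ} (hM : 0 ≤ M) (h : ∀ x, ‖η x‖ ≤ M * ‖ζ x‖) :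
    ‖η‖ ≤ M * ‖ζ‖ := by
  have h1 : ‖η‖ ^ 2 ≤ (M * ‖ζ‖) ^ 2 := by
    rw [mul_pow, norm_sq_eq, norm_sq_eq, ← tsum_mul_left]
    refine (summable_sq η).tsum_le_tsum (fun x => ?_) ((summable_sq ζ).mul_left _)
    rw [← mul_pow]
    exact pow_le_pow_left₀ (norm_nonneg _) (h x) 2
  exact (sq_le_sq₀ (norm_nonneg _) (by positivity)).1 h1

theorem diag_sum {X : Type} (e : X → ℝ) (hM : ∀ x, |e x| ≤ 1) (ζ : L2 X) :
    Summable (fun x => ‖((e x : ℝ) : ℂ) * ζ x‖ ^ 2) := by
  refine Summable.of_nonneg_of_le (fun x => by positivity) (fun x => ?_) (summable_sq ζ)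
  rw [norm_mul, Complex.norm_real]
  refine pow_le_pow_left₀ (by positivity) ?_ 2
  exact mul_le_of_le_one_left (norm_nonneg _) (hM x)

/-- the diagonal operator, linear map -/
def diagL {X : Type} (e : X → ℝ) (hM : ∀ x, |e x| ≤ 1) : L2 X →ₗ[ℂ] L2 X where
  toFun := fun ζ => ⟨fun x => (e x : ℂ) * ζ x, mem_of_summable (diag_sum e hM ζ)⟩
  map_add' := by
    intro ζ η
    apply vec_ext
    intro x
    exact mul_add _ _ _
  map_smul' := by
    intro c ζ
    apply vec_ext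
    intro x
    exact mul_left_comm _ _ _

theorem diagL_apply {X : Type} (e : X → ℝ) (hM : ∀ x, |e x| ≤ 1) (ζ : L2 X) (x : X) :
    (diagL e hM ζ) x = (e x : ℂ) * ζ x := rfl

/-- the diagonal operator -/
def diag {X : Type} (e : X → ℝ) (hM : ∀ x, |e x| ≤ 1) : B X :=
  (diagL e hM).mkContinuous 1 (fun ζ => by
    refine norm_le_of zero_le_one fun x => ?_
    rw [diagL_apply, norm_mul, Complex.norm_real]
    exact mul_le_mul_of_nonneg_right (hM x) (norm_nonneg _))

theorem diag_apply {X : Type} (e : X → ℝ) (hM : ∀ x, |e x| ≤ 1) (ζ : L2 X) (x : X) :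
    (diag e hM ζ) x = (e x : ℂ) * ζ x := rfl

theorem diag_dl {X : Type} (e : X → ℝ) (hM : ∀ x, |e x| ≤ 1) (x : X) :
    diag e hM (dl x) = (e x : ℂ) • (dl x : L2 X) := by
  apply vec_ext
  intro y
  rw [diag_apply, lp.coeFn_smul, Pi.smul_apply, smul_eq_mul]
  by_cases h : y = x
  · rw [h]
  · rw [dl_apply_ne h, mul_zero, mul_zero]

theorem cp_diag {X : Type} (e : X → ℝ) (hM : ∀ x, |e x| ≤ 1)
    (h : Tendsto e cofinite (𝓝 0)) : Cp (diag e hM) := by
  intro ε hε
  have h1 : ∀ᶠ x in cofinite, |e x| ≤ ε := by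
    have h2 := h.abs
    rw [abs_zero] at h2
    exact h2.eventually_le_const hε
  have h3 : {x | ¬ |e x| ≤ ε}.Finite := by
    have := eventually_cofinite.1 h1
    exact this
  refine ⟨h3.toFinset, fun ζ hζ => ?_⟩
  refine norm_le_of hε.le fun x => ?_
  rw [diag_apply, norm_mul, Complex.norm_real]
  by_cases hx : |e x| ≤ ε
  · exact mul_le_mul_of_nonneg_right hx (norm_nonneg _)
  · rw [hζ x (h3.mem_toFinset.2 hx), norm_zero, mul_zero, mul_zero]

/-! ### the Bhattacharyya coefficient -/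

section

variable {G : Type}

/-- `∑ √p √q` -/
def bc (p q : G →₀ ℝ) : ℝ := ∑ h ∈ p.support, √(p h) * √(q h)

theorem sum_S (p : G →₀ ℝ) {S : Finset G} (h : p.support ⊆ S) :
    ∑ h ∈ S, p h = p.sum fun _ a => a :=
  (Finsupp.sum_of_support_subset p h (fun _ a => a) (fun _ _ => rfl)).symm

theorem bc_bound {p q : G →₀ ℝ} (hp : Pr p) (hq : Pr q) : |bc p q - 1| ≤ l1 (p - q) / 2 := by
  classical
  obtain ⟨S, hS⟩ : ∃ S : Finset G, S = p.support ∪ q.support := ⟨_, rfl⟩
  have e1 : bc p q = ∑ h ∈ S, √(p h) * √(q h) := by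
    unfold bc
    refine Finset.sum_subset (by rw [hS]; exact Finset.subset_union_left) ?_
    intro h _ hh
    rw [Finsupp.notMem_support_iff.1 hh, Real.sqrt_zero, zero_mul]
  have e2 : ∑ h ∈ S, p h = 1 := by
    rw [← hp.one]
    exact sum_S p (by rw [hS]; exact Finset.subset_union_left)
  have e3 : ∑ h ∈ S, q h = 1 := by
    rw [← hq.one]
    exact sum_S q (by rw [hS]; exact Finset.subset_union_right)
  have e4 : l1 (p - q) = ∑ h ∈ S, |p h - q h| := by
    unfold l1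
    rw [Finsupp.sum_of_support_subset (p - q) (s := S) ?_ _ (fun _ _ => abs_zero)]
    · refine Finset.sum_congr rfl fun h _ => ?_
      rw [Finsupp.sub_apply]
    · intro h hh
      rw [hS, Finset.mem_union]
      by_contra hc
      push Not at hc
      rw [Finsupp.mem_support_iff, Finsupp.sub_apply, Finsupp.notMem_support_iff.1 hc.1,
        Finsupp.notMem_support_iff.1 hc.2, sub_zero] at hh
      exact hh rfl
  have e5 : ∑ h ∈ S, (√(p h) - √(q h)) ^ 2 = 2 - 2 * bc p q := by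
    have : ∀ h ∈ S, (√(p h) - √(q h)) ^ 2 = p h + q h - 2 * (√(p h) * √(q h)) := by
      intro h _
      have a1 := Real.sq_sqrt (hp.nonneg h)
      have a2 := Real.sq_sqrt (hq.nonneg h)
      linear_combination a1 + a2
    rw [Finset.sum_congr rfl this, Finset.sum_sub_distrib, Finset.sum_add_distrib, e2, e3,
      ← Finset.mul_sum, e1]
    ring
  have e6 : ∑ h ∈ S, (√(p h) - √(q h)) ^ 2 ≤ ∑ h ∈ S, |p h - q h| := by
    refine Finset.sum_le_sum fun h _ => ?_
    have a1 := Real.sq_sqrt (hp.nonneg h)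
    have a2 := Real.sq_sqrt (hq.nonneg h)
    have b1 := Real.sqrt_nonneg (p h)
    have b2 := Real.sqrt_nonneg (q h)
    have e : p h - q h = (√(p h) - √(q h)) * (√(p h) + √(q h)) := by
      linear_combination -a1 + a2
    rw [e, abs_mul, abs_of_nonneg (add_nonneg b1 b2), ← sq_abs, sq]
    refine mul_le_mul_of_nonneg_left ?_ (abs_nonneg _)
    rw [abs_le]
    constructor <;> linarith
  have e7 : 0 ≤ ∑ h ∈ S, (√(p h) - √(q h)) ^ 2 := Finset.sum_nonneg fun h _ => sq_nonneg _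
  rw [e4, abs_le]
  constructor <;> linarith

theorem l1_le {p q : G →₀ ℝ} (hp : Pr p) (hq : Pr q) : l1 (p - q) ≤ 2 := by
  classical
  have h1 : l1 (p - q) ≤ ∑ h ∈ p.support ∪ q.support, (p h + q h) := by
    unfold l1
    rw [Finsupp.sum_of_support_subset (p - q) (s := p.support ∪ q.support) ?_ _
      (fun _ _ => abs_zero)]
    · refine Finset.sum_le_sum fun h _ => ?_
      rw [Finsupp.sub_apply]
      have a1 := hp.nonneg h
      have a2 := hq.nonneg h
      rw [abs_le]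
      constructor <;> linarith
    · intro h hh
      rw [Finset.mem_union]
      by_contra hc
      push Not at hc
      rw [Finsupp.mem_support_iff, Finsupp.sub_apply, Finsupp.notMem_support_iff.1 hc.1,
        Finsupp.notMem_support_iff.1 hc.2, sub_zero] at hh
      exact hh rfl
  rw [Finset.sum_add_distrib] at h1
  have e2 : ∑ h ∈ p.support ∪ q.support, p h = 1 := by
    rw [← hp.one]
    exact sum_S p Finset.subset_union_left
  have e3 : ∑ h ∈ p.support ∪ q.support, q h = 1 := by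
    rw [← hq.one]
    exact sum_S q Finset.subset_union_right
  linarith

end

variable {G : Type} [Group G]

theorem tr_apply (g h : G) (p : G →₀ ℝ) : tr g p h = p (g⁻¹ * h) := by
  unfold tr
  have h1 := Finsupp.mapDomain_apply (mul_right_injective g) p (g⁻¹ * h)
  rw [mul_inv_cancel_left] at h1
  exact h1

theorem tr_pr {p : G →₀ ℝ} (hp : Pr p) (g : G) : Pr (tr g p) := by
  refine ⟨fun h => ?_, ?_⟩
  · rw [tr_apply]
    exact hp.nonneg _
  · unfold tr
    rw [Finsupp.sum_mapDomain_index (fun _ => rfl) (fun _ _ _ => rfl)]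
    exact hp.one

/-! ### the entries -/

variable {J : Type} {μ : G → (G →₀ ℝ)} {α β : J → G → ℝ} {C : ℝ}

theorem pj_W {W : L2 G →L[ℂ] L2 (G × (J × G))} (hW : Wt μ α C W) {x : B G} (hx : x ∈ LG G)
    (b h : G) (j : J) (k : G) : (pj J x (W (dl b))) (h, (j, k)) =
      ((α j (b * k⁻¹)⁻¹ * √(μ b (b * k⁻¹)) : ℝ) : ℂ) * cf x (h * (b * k⁻¹)⁻¹) := by
  have h1 : (pj J x (W (dl b))) (h, (j, k)) =
      (x (pull (fun x => (Equiv.refl (G × (J × G))) (x, (j, k))) (amp_inj _ (j, k))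
        (W (dl b)))) h := amp_apply (Equiv.refl (G × (J × G))) x (W (dl b)) h (j, k)
  have h2 : pull (fun x => (Equiv.refl (G × (J × G))) (x, (j, k))) (amp_inj _ (j, k)) (W (dl b)) =
      ((α j (b * k⁻¹)⁻¹ * √(μ b (b * k⁻¹)) : ℝ) : ℂ) • (dl (b * k⁻¹) : L2 G) := by
    apply vec_ext
    intro w
    rw [pull_apply, lp.coeFn_smul, Pi.smul_apply, smul_eq_mul]
    show (W (dl b)) (w, (j, k)) = _
    rw [hW.ap]
    by_cases hw : w = b * k⁻¹
    · subst hw
      rw [inv_mul_cancel_right, dl_apply_self, dl_apply_self]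
    · rw [dl_apply_ne hw, dl_apply_ne (x := b) (y := w * k), mul_zero, mul_zero]
      intro hc
      exact hw (by rw [← hc, mul_inv_cancel_right])
  rw [h1, h2, map_smul, lp.coeFn_smul, Pi.smul_apply, smul_eq_mul, ← inner_dl h,
    mem_LG_iff.1 hx]

theorem ent_T {f : G → ℝ} (hαβ : ∀ x y, HasSum (fun j => α j x * β j y) (f (y⁻¹ * x)))
    {W U : L2 G →L[ℂ] L2 (G × (J × G))} (hW : Wt μ α C W) (hU : Wt μ β C U) {x : B G}
    (hx : x ∈ LG G) (a b : G) :
    ⟪dl a, ((adjoint U).comp ((pj J x).comp W)) (dl b)⟫_ℂ =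
      (f (a * b⁻¹) : ℂ) * cf x (a * b⁻¹) * (bc (μ a) (tr (a * b⁻¹) (μ b)) : ℂ) := by
  have h0 : ⟪dl a, ((adjoint U).comp ((pj J x).comp W)) (dl b)⟫_ℂ =
      ⟪U (dl a), pj J x (W (dl b))⟫_ℂ := by
    show ⟪dl a, (adjoint U) (pj J x (W (dl b)))⟫_ℂ = _
    rw [ContinuousLinearMap.adjoint_inner_right]
  rw [h0]
  have H := lp.hasSum_inner (𝕜 := ℂ) (U (dl a)) (pj J x (W (dl b)))
  obtain ⟨S, hS⟩ : ∃ S : ℂ, S = ⟪U (dl a), pj J x (W (dl b))⟫_ℂ := ⟨_, rfl⟩
  rw [← hS] at H ⊢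
  -- restriction to the support
  obtain ⟨φ, hφ⟩ : ∃ φ : G × J → G × (J × G), φ = fun p => (p.1, (p.2, p.1⁻¹ * a)) := ⟨_, rfl⟩
  have hinj : Function.Injective φ := by
    rw [hφ]
    rintro ⟨h, j⟩ ⟨h', j'⟩ he
    simp only [Prod.mk.injEq] at he
    exact Prod.ext he.1 he.2.1
  have H2 := (hinj.hasSum_iff (f := fun i => ⟪(U (dl a)) i, (pj J x (W (dl b))) i⟫_ℂ) (by
    rintro ⟨h, j, k⟩ hi
    have hne : h * k ≠ a := by
      intro hc
      apply hi
      refine ⟨(h, j), ?_⟩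
      rw [hφ]
      show (h, (j, h⁻¹ * a)) = _
      rw [← hc, inv_mul_cancel_left]
    show ⟪(U (dl a)) (h, (j, k)), (pj J x (W (dl b))) (h, (j, k))⟫_ℂ = 0
    rw [hU.ap, dl_apply_ne hne, mul_zero, inner_zero_left])).2 H
  -- the fibres
  have H3 := H2.prod_fiberwise (g := fun h => ((√(μ a h) * √(μ b ((a * b⁻¹)⁻¹ * h)) : ℝ) : ℂ) *
      (cf x (a * b⁻¹) * (f (a * b⁻¹) : ℂ))) (fun h => by
    have h1 := (Complex.hasSum_ofReal.2 (hαβ ((a * b⁻¹)⁻¹ * h)⁻¹ h⁻¹)).mul_left
      (((√(μ a h) * √(μ b ((a * b⁻¹)⁻¹ * h)) : ℝ) : ℂ) * cf x (a * b⁻¹))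
    have e1 : (h⁻¹)⁻¹ * ((a * b⁻¹)⁻¹ * h)⁻¹ = a * b⁻¹ := by group
    rw [e1, mul_assoc] at h1
    refine h1.congr_fun ?_
    intro j
    rw [hφ]
    show ⟪(U (dl a)) (h, (j, h⁻¹ * a)), (pj J x (W (dl b))) (h, (j, h⁻¹ * a))⟫_ℂ = _
    rw [hU.ap, pj_W hW hx, mul_inv_cancel_left, dl_apply_self, mul_one]
    have e2 : b * (h⁻¹ * a)⁻¹ = (a * b⁻¹)⁻¹ * h := by group
    have e3 : h * ((a * b⁻¹)⁻¹ * h)⁻¹ = a * b⁻¹ := by group
    rw [e2, e3, RCLike.inner_apply, Complex.conj_ofReal]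
    push_cast
    ring)
  have H4 := hasSum_sum_of_ne_finset_zero (s := (μ a).support)
    (L := SummationFilter.unconditional G)
    (f := fun h => ((√(μ a h) * √(μ b ((a * b⁻¹)⁻¹ * h)) : ℝ) : ℂ) *
      (cf x (a * b⁻¹) * (f (a * b⁻¹) : ℂ))) (fun h hh => by
    rw [Finsupp.notMem_support_iff.1 hh, Real.sqrt_zero, zero_mul, Complex.ofReal_zero, zero_mul])
  rw [H3.unique H4, ← Finset.sum_mul]
  unfold bc
  simp only [tr_apply]
  push_cast
  ring

end OPC

open OPC in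
theorem s_opc : S_OPC := by
  classical
  intro G _ J μ α β C s f hC hμ hα hβ hαβ hs hlim W U hW hU x hx
  -- the diagonal operators
  have hb : ∀ g b, |bc (μ (g * b)) (tr g (μ b)) - 1| ≤ 1 := by
    intro g b
    have h1 := bc_bound (hμ (g * b)) (tr_pr (hμ b) g)
    have h2 := l1_le (hμ (g * b)) (tr_pr (hμ b) g)
    linarith
  have hcp : ∀ g, Cp (diag (fun b => bc (μ (g * b)) (tr g (μ b)) - 1) (hb g)) := by
    intro g
    apply cp_diag
    have h1 := (hlim g).div_const 2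
    rw [zero_div] at h1
    refine squeeze_zero_norm (fun b => ?_) h1
    rw [Real.norm_eq_abs, mul_one]
    exact bc_bound (hμ (g * b)) (tr_pr (hμ b) g)
  have key : (adjoint U).comp ((pj J x).comp W) - mf s f x =
      ∑ g ∈ s, ((f g : ℂ) * cf x g) •
        (lam g).comp (diag (fun b => bc (μ (g * b)) (tr g (μ b)) - 1) (hb g)) := by
    apply Pool.Agent.H494R3.GT.op_ext_inner
    intro a b
    rw [sub_apply, inner_sub_right, ent_T hαβ hW hU hx]
    unfold mf
    rw [sum_apply, sum_apply, inner_sum, inner_sum]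
    have e1 : ∀ g ∈ s, ⟪dl a, (((f g : ℂ) * cf x g) • lam g) (dl b)⟫_ℂ =
        if g = a * b⁻¹ then (f g : ℂ) * cf x g else 0 := by
      intro g _
      rw [smul_apply, Pool.Agent.N557.QW.lam_dl, inner_smul_right,
        Pool.Agent.H494R3.GT.dl_inner]
      by_cases h : a = g * b
      · rw [if_pos h, if_pos (by rw [h, mul_inv_cancel_right]), mul_one]
      · rw [if_neg h, if_neg, mul_zero]
        intro hc
        exact h (by rw [hc, inv_mul_cancel_right])
    have e2 : ∀ g ∈ s, ⟪dl a, (((f g : ℂ) * cf x g) •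
        (lam g).comp (diag (fun b => bc (μ (g * b)) (tr g (μ b)) - 1) (hb g))) (dl b)⟫_ℂ =
        if g = a * b⁻¹ then (f g : ℂ) * cf x g *
          (((bc (μ (g * b)) (tr g (μ b)) - 1 : ℝ)) : ℂ) else 0 := by
      intro g _
      rw [smul_apply, ContinuousLinearMap.comp_apply, diag_dl, map_smul,
        Pool.Agent.N557.QW.lam_dl, inner_smul_right, inner_smul_right,
        Pool.Agent.H494R3.GT.dl_inner]
      by_cases h : a = g * b
      · rw [if_pos h, if_pos (by rw [h, mul_inv_cancel_right]), mul_one]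
      · rw [if_neg h, if_neg, mul_zero, mul_zero]
        intro hc
        exact h (by rw [hc, inv_mul_cancel_right])
    rw [Finset.sum_congr rfl e1, Finset.sum_congr rfl e2, Finset.sum_ite_eq', Finset.sum_ite_eq']
    by_cases h : a * b⁻¹ ∈ s
    · rw [if_pos h, if_pos h, inv_mul_cancel_right]
      push_cast
      ring
    · rw [if_neg h, if_neg h, hs _ h]
      simp
  rw [key]
  exact cp_sum _ _ fun g _ => cp_smul (cp_comp (hcp g) _) _

end

end Pool.Agent.N693.SSD
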