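import Pool.Agent.N693.SSD.Stm

/-!
# Project SS/D, FIN/OPD: almost commutation with the right translations (helper37)
-/

set_option autoImplicit false

namespace Pool.Agent.N693.SSD

open Filter Topology
open scoped InnerProductSpace ComplexOrder
open Pool.Agent.H494R3.GT (L2 dl)
open Pool.Agent.N557.QW (lam rgt LG LK cf rc)
open Pool.Agent.N571.SS Pool.Agent.N571.SS.D
open ContinuousLinearMap (adjoint)

noncomputable section

namespace OPD

theorem sqrt_sub_sq {a b : ℝ} (ha : 0 ≤ a) (hb : 0 ≤ b) : (√a - √b) ^ 2 ≤ |a - b| := by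
  have h1 : a - b = (√a - √b) * (√a + √b) := by
    have h2 := Real.mul_self_sqrt ha
    have h3 := Real.mul_self_sqrt hb
    linear_combination h3 - h2
  rw [h1, abs_mul, abs_of_nonneg (add_nonneg (Real.sqrt_nonneg a) (Real.sqrt_nonneg b)),
    ← sq_abs, sq]
  refine mul_le_mul_of_nonneg_left ?_ (abs_nonneg _)
  rw [abs_le]
  constructor
  · linarith [Real.sqrt_nonneg a]
  · linarith [Real.sqrt_nonneg b]

theorem sum_le_l1 {G : Type} (p : G →₀ ℝ) (s : Finset G) : ∑ h ∈ s, |p h| ≤ l1 p := by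
  classical
  unfold l1 Finsupp.sum
  have h1 : ∑ h ∈ s, |p h| ≤ ∑ h ∈ s ∪ p.support, |p h| :=
    Finset.sum_le_sum_of_subset_of_nonneg Finset.subset_union_left fun _ _ _ => abs_nonneg _
  refine h1.trans (le_of_eq ?_)
  refine (Finset.sum_subset Finset.subset_union_right fun x _ hx => ?_).symm
  rw [Finsupp.notMem_support_iff.1 hx, abs_zero]

theorem tr_one {G : Type} [Group G] (p : G →₀ ℝ) : tr 1 p = p := by
  unfold tr
  have : (fun x : G => 1 * x) = id := by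
    funext x
    exact one_mul x
  rw [this]
  exact Finsupp.mapDomain_id

variable {G : Type} [Group G]

theorem ap {J : Type} {μ : G → (G →₀ ℝ)} {α : J → G → ℝ} {C : ℝ}
    {W : L2 G →L[ℂ] L2 (G × (J × G))} (hW : Wt μ α C W) (t : G) (ζ : L2 G) (h : G) (j : J)
    (k : G) : ((W.comp (rgt t) - (ro J t).comp W) ζ) (h, (j, k)) =
      ((α j h⁻¹ * (√(μ (h * k * t⁻¹ * t) h) - √(μ (h * k * t⁻¹) h)) : ℝ) : ℂ) *
        ζ (h * k * t⁻¹) := by
  have h1 : ((W.comp (rgt t) - (ro J t).comp W) ζ) (h, (j, k)) =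
      (W (rgt t ζ)) (h, (j, k)) - (ro J t (W ζ)) (h, (j, k)) := rfl
  have h2 : (ro J t (W ζ)) (h, (j, k)) = (W ζ) (h, (j, k * t⁻¹)) := rfl
  have h3 : (rgt t ζ) (h * k) = ζ (h * k * t⁻¹) := by
    unfold rgt
    rw [Pool.Agent.H494R3.GT.UU_apply]
    rfl
  rw [h1, h2, hW.ap, hW.ap, h3, inv_mul_cancel_right, mul_assoc h k t⁻¹]
  push_cast
  ring

theorem sum_le {X : Type} (ζ : L2 X) (s : Finset X) : ∑ x ∈ s, ‖ζ x‖ ^ 2 ≤ ‖ζ‖ ^ 2 := by
  rw [Pool.Agent.H812R3.KP.norm_sq_eq]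
  exact (Pool.Agent.H812R3.KP.summable_sq ζ).sum_le_tsum _ fun _ _ => by positivity

end OPD

open OPD in
theorem s_opd : S_OPD := by
  classical
  intro G _ J μ α C hC hμ hα hlim W hW t ε hε
  have hlim' : Tendsto (fun x => C * l1 (μ (x * t) - μ x)) cofinite (𝓝 0) := by
    have h1 := (hlim t).const_mul C
    rw [mul_zero] at h1
    refine h1.congr fun x => ?_
    rw [one_mul, tr_one]
  have hfin : {x | ¬ C * l1 (μ (x * t) - μ x) ≤ ε ^ 2}.Finite := by
    have h1 := hlim'.eventually (ge_mem_nhds (show (0 : ℝ) < ε ^ 2 by positivity))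
    exact h1
  refine ⟨hfin.toFinset, fun ζ hζ => ?_⟩
  have hnn : 0 ≤ ε * ‖ζ‖ := by positivity
  refine lp.norm_le_of_forall_sum_le (p := 2) (by norm_num) hnn fun S => ?_
  have e2 : (2 : ENNReal).toReal = ((2 : ℕ) : ℝ) := by norm_num
  rw [e2]
  simp only [Real.rpow_natCast]
  let Φ : G × (G × J) → ℝ := fun y => α y.2.2 y.2.1⁻¹ ^ 2 *
    (√(μ (y.1 * t) y.2.1) - √(μ y.1 y.2.1)) ^ 2 * ‖ζ y.1‖ ^ 2
  have hΦ : ∀ y, 0 ≤ Φ y := fun y => by positivity
  let g : G × (J × G) → G × (G × J) := fun y => (y.1 * y.2.2 * t⁻¹, (y.1, y.2.1))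
  have hg : Function.Injective g := by
    rintro ⟨h, j, k⟩ ⟨h', j', k'⟩ hh
    simp only [g, Prod.mk.injEq] at hh
    obtain ⟨h1, rfl, rfl⟩ := hh
    rw [mul_left_inj, mul_right_inj] at h1
    rw [h1]
  have hterm : ∀ y, ‖((W.comp (rgt t) - (ro J t).comp W) ζ) y‖ ^ 2 = Φ (g y) := by
    rintro ⟨h, j, k⟩
    rw [OPD.ap hW, norm_mul, mul_pow, Complex.norm_real, Real.norm_eq_abs, sq_abs, mul_pow]
  rw [Finset.sum_congr rfl fun y _ => hterm y, ← Finset.sum_image (f := Φ) (hg.injOn)]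
  let T := S.image g
  have hsub : T ⊆ T.image Prod.fst ×ˢ ((T.image fun y => y.2.1) ×ˢ (T.image fun y => y.2.2)) := by
    intro y hy
    rw [Finset.mem_product, Finset.mem_product]
    exact ⟨Finset.mem_image_of_mem _ hy, Finset.mem_image.2 ⟨y, hy, rfl⟩,
      Finset.mem_image.2 ⟨y, hy, rfl⟩⟩
  refine (Finset.sum_le_sum_of_subset_of_nonneg hsub fun y _ _ => hΦ y).trans ?_
  rw [Finset.sum_product]
  have hx : ∀ x ∈ T.image Prod.fst, ∑ y ∈ (T.image fun y => y.2.1) ×ˢ (T.image fun y => y.2.2),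
      Φ (x, y) ≤ ε ^ 2 * ‖ζ x‖ ^ 2 := by
    intro x _
    rw [Finset.sum_product]
    have h1 : ∀ h ∈ (T.image fun y => y.2.1), ∑ j ∈ (T.image fun y => y.2.2), Φ (x, (h, j)) ≤
        C * |(μ (x * t) - μ x) h| * ‖ζ x‖ ^ 2 := by
      intro h _
      have h2 : ∑ j ∈ (T.image fun y => y.2.2), Φ (x, (h, j)) =
          (∑ j ∈ (T.image fun y => y.2.2), α j h⁻¹ ^ 2) *
            ((√(μ (x * t) h) - √(μ x h)) ^ 2) * ‖ζ x‖ ^ 2 := by
        rw [Finset.sum_mul, Finset.sum_mul]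
      rw [h2]
      have h3 : ∑ j ∈ (T.image fun y => y.2.2), α j h⁻¹ ^ 2 ≤ C :=
        ((hα h⁻¹).1.sum_le_tsum _ fun _ _ => sq_nonneg _).trans (hα h⁻¹).2
      have h4 := sqrt_sub_sq ((hμ (x * t)).nonneg h) ((hμ x).nonneg h)
      rw [Finsupp.sub_apply]
      refine mul_le_mul_of_nonneg_right ?_ (by positivity)
      exact mul_le_mul h3 h4 (sq_nonneg _) hC
    refine (Finset.sum_le_sum h1).trans ?_
    rw [← Finset.sum_mul, ← Finset.mul_sum]
    have h5 := sum_le_l1 (μ (x * t) - μ x) (T.image fun y => y.2.1)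
    by_cases hxF : C * l1 (μ (x * t) - μ x) ≤ ε ^ 2
    · refine mul_le_mul_of_nonneg_right ?_ (by positivity)
      exact (mul_le_mul_of_nonneg_left h5 hC).trans hxF
    · rw [hζ x (hfin.mem_toFinset.2 hxF)]
      simp
  refine (Finset.sum_le_sum hx).trans ?_
  rw [← Finset.mul_sum, mul_pow]
  exact mul_le_mul_of_nonneg_left (OPD.sum_le ζ _) (by positivity)

end

end Pool.Agent.N693.SSD
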