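import Pool.Agent.N693.SSD.Stm

/-!
# Project SS/D, FIN/RO: properties of `ro` and `pj` (helper225 for helper693)
-/

set_option autoImplicit false

namespace Pool.Agent.N693.SSD

open Filter Topology
open scoped InnerProductSpace ComplexOrder
open Pool.Agent.H494R3.GT (L2 dl)
open Pool.Agent.N557.QW (lam rgt LG LK cf rc)
open Pool.Agent.N571.SS Pool.Agent.N571.SS.D
open ContinuousLinearMap (adjoint)

namespace RO

open Pool.Agent.H812R3

/-- `(k, (h, j)) ↦ (h, (j, k))` -/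
def e1 (G J : Type) : G × (G × J) ≃ G × (J × G) where
  toFun p := (p.2.1, (p.2.2, p.1))
  invFun p := (p.2.2, (p.1, p.2.1))
  left_inv _ := rfl
  right_inv _ := rfl

theorem rgt_apply {G : Type} [Group G] (t : G) (ζ : L2 G) (k : G) : (rgt t ζ) k = ζ (k * t⁻¹) := by
  unfold rgt
  rw [Pool.Agent.H494R3.GT.UU_apply]
  rfl

theorem ro_apply {G J : Type} [Group G] (t : G) (ξ : L2 (G × (J × G))) (h : G) (j : J) (k : G) :
    (ro J t ξ) (h, (j, k)) = ξ (h, (j, k * t⁻¹)) := rfl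

theorem amp_rgt {G : Type} [Group G] (J : Type) (t : G) :
    KP.amp (e1 G J) (rgt t) = ro J t := by
  ext ξ : 1
  apply KP.ampF_ext (e1 G J)
  rintro x ⟨h, j⟩
  rw [KP.amp_apply]
  refine (rgt_apply t _ x).trans ?_
  rfl

theorem sum_eq {G : Type} [Group G] (J : Type) (s : Finset G) (c : G → ℂ) :
    ∑ g ∈ s, c g • ro J g = KP.amp (e1 G J) (∑ g ∈ s, c g • rgt g) := by
  rw [map_sum]
  refine Finset.sum_congr rfl fun g _ => ?_
  rw [map_smul, amp_rgt]

theorem norm_amp {X Z Y : Type} (e : X × Z ≃ Y) (T : KP.B X) : ‖KP.amp e T‖ ≤ ‖T‖ :=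
  KP.norm_ampF_le e T

theorem comm1 {G : Type} [Group G] (J : Type) (g : G) (T : B G) :
    ro J g * pj J T = pj J T * ro J g := by
  ext ξ : 1
  apply KP.ampF_ext (Equiv.refl (G × (J × G)))
  rintro h ⟨j, k⟩
  have a1 : ((ro J g * pj J T) ξ) (h, (j, k)) = (pj J T ξ) (h, (j, k * g⁻¹)) := rfl
  have a2 : (pj J T ξ) (h, (j, k * g⁻¹)) =
      (T (KP.pull (fun x => (Equiv.refl (G × (J × G))) (x, (j, k * g⁻¹)))
        (KP.amp_inj _ _) ξ)) h := KP.amp_apply (Equiv.refl (G × (J × G))) T ξ h (j, k * g⁻¹)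
  have a3 : ((pj J T * ro J g) ξ) (h, (j, k)) =
      (T (KP.pull (fun x => (Equiv.refl (G × (J × G))) (x, (j, k)))
        (KP.amp_inj _ _) (ro J g ξ))) h := KP.amp_apply (Equiv.refl (G × (J × G))) T (ro J g ξ) h (j, k)
  change ((ro J g * pj J T) ξ) (h, (j, k)) = ((pj J T * ro J g) ξ) (h, (j, k))
  rw [a1, a2, a3]
  rfl

end RO

theorem s_ro : S_RO := by
  intro G _ J s c
  constructor
  · rw [RO.sum_eq]
    exact RO.norm_amp _ _
  · intro T
    rw [Finset.sum_mul, Finset.mul_sum]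
    refine Finset.sum_congr rfl fun g _ => ?_
    rw [smul_mul_assoc, mul_smul_comm, RO.comm1]

end Pool.Agent.N693.SSD
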