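import Pool.Agent.N693.SSD.Stm

/-!
# Project SS/D/FIN, part SEQ: the sequence of multipliers and their coordinates (helper720)
-/

set_option autoImplicit false

namespace Pool.Agent.N693.SSD

open Filter Topology
open scoped InnerProductSpace ComplexOrder
open Pool.Agent.H494R3.GT (L2 dl)
open Pool.Agent.N557.QW (lam rgt LG LK cf rc)
open Pool.Agent.N571.SS Pool.Agent.N571.SS.D
open ContinuousLinearMap (adjoint)

namespace SEQ

theorem bd_of {G H : Type} [NormedAddCommGroup H] [InnerProductSpace ℝ H] {J : Type} {b : J → H}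
    (hb : Orthonormal ℝ b) (ξ : G → H) (C : ℝ) (hξ : ∀ x, ‖ξ x‖ ^ 2 ≤ C) :
    Bd (fun j x => inner ℝ (b j) (ξ x)) C := by
  intro x
  have h1 := hb.inner_products_summable (x := ξ x)
  have h2 := hb.tsum_inner_products_le (x := ξ x)
  have e : (fun j => ‖inner ℝ (b j) (ξ x)‖ ^ 2) = fun j => (inner ℝ (b j) (ξ x)) ^ 2 := by
    funext j
    rw [Real.norm_eq_abs, sq_abs]
  rw [e] at h1 h2
  exact ⟨h1, h2.trans (hξ x)⟩

end SEQ

open SEQ in
theorem s_seq : S_SEQ := by
  classical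
  intro G _ _ hC
  obtain ⟨e, he⟩ := exists_surjective_nat G
  have h : ∀ k : ℕ, ∃ φ : G → ℝ, {g | φ g ≠ 0}.Finite ∧
      (∀ g ∈ (Finset.range (k + 1)).image e, |φ g - 1| < 1 / ((k : ℝ) + 1)) ∧
      HS φ (1 + 1 / ((k : ℝ) + 1)) := fun k => hC.ex _ _ (by positivity)
  choose f hf1 hf2 hf3 using h
  refine ⟨f, fun k => (hf1 k).toFinset, ?_, ?_, ?_, hf3, ?_⟩
  · intro k g hg
    by_contra h
    exact hg ((hf1 k).mem_toFinset.2 h)
  · intro g
    obtain ⟨n, rfl⟩ := he g
    rw [tendsto_iff_norm_sub_tendsto_zero]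
    refine squeeze_zero' (Eventually.of_forall fun _ => norm_nonneg _) ?_
      (tendsto_one_div_add_atTop_nhds_zero_nat (𝕜 := ℝ))
    filter_upwards [eventually_ge_atTop n] with k hk
    exact (hf2 k (e n) (Finset.mem_image_of_mem e (Finset.mem_range.2 (by omega)))).le
  · intro k g
    obtain ⟨H, _, _, _, ξ, η, h1, h2⟩ := (hf3 k).ex
    have e1 : f k g = inner ℝ (ξ g) (η 1) := by
      rw [h1]
      simp
    rw [e1]
    have h3 := abs_real_inner_le_norm (ξ g) (η 1)
    have h4 := (h2 g).1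
    have h5 := (h2 1).2
    have h6 : 1 / ((k : ℝ) + 1) ≤ 1 := by
      rw [div_le_one (by positivity)]
      have : (0 : ℝ) ≤ k := Nat.cast_nonneg k
      linarith
    nlinarith [sq_nonneg (‖ξ g‖ - ‖η 1‖)]
  · intro k
    obtain ⟨H, _, _, _, ξ, η, h1, h2⟩ := (hf3 k).ex
    obtain ⟨w, b, -⟩ := exists_hilbertBasis ℝ H
    refine ⟨w, fun j x => inner ℝ (b j) (ξ x), fun j x => inner ℝ (b j) (η x),
      bd_of b.orthonormal ξ _ (fun x => (h2 x).1), bd_of b.orthonormal η _ (fun x => (h2 x).2), ?_⟩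
    intro x y
    rw [← h1 x y]
    have h3 := b.hasSum_inner_mul_inner (ξ x) (η y)
    refine h3.congr_fun ?_
    intro j
    show inner ℝ (b j) (ξ x) * inner ℝ (b j) (η y) = inner ℝ (ξ x) (b j) * inner ℝ (b j) (η y)
    rw [real_inner_comm (ξ x) (b j)]

end Pool.Agent.N693.SSD
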