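import Pool.Agent.N693.SSD.Stm

/-!
# Project SS/D/FIN, part WEX (helper657): a weighted composition operator
-/

set_option autoImplicit false

namespace Pool.Agent.N693.SSD

open Filter Topology
open scoped InnerProductSpace ComplexOrder
open Pool.Agent.H494R3.GT (L2 dl)
open Pool.Agent.N557.QW (lam rgt LG LK cf rc)
open Pool.Agent.N571.SS Pool.Agent.N571.SS.D
open ContinuousLinearMap (adjoint)

namespace WEX

noncomputable section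

variable {G : Type} [Group G] {J : Type}

/-- the weight -/
def wt (μ : G → (G →₀ ℝ)) (α : J → G → ℝ) (z : G × (J × G)) : ℂ :=
  ((α z.2.1 z.1⁻¹ * √(μ (z.1 * z.2.2) z.1) : ℝ) : ℂ)

/-- the values of `W ζ` -/
def tm (μ : G → (G →₀ ℝ)) (α : J → G → ℝ) (ζ : L2 G) (z : G × (J × G)) : ℂ :=
  wt μ α z * ζ (z.1 * z.2.2)

theorem tm_sq {μ : G → (G →₀ ℝ)} (hμ : ∀ x, Pr (μ x)) (α : J → G → ℝ) (ζ : L2 G) (h : G) (j : J)
    (k : G) : ‖tm μ α ζ (h, (j, k))‖ ^ 2 = α j h⁻¹ ^ 2 * (μ (h * k) h * ‖ζ (h * k)‖ ^ 2) := by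
  unfold tm wt
  simp only
  rw [norm_mul, mul_pow, Complex.norm_real, Real.norm_eq_abs, sq_abs, mul_pow,
    Real.sq_sqrt ((hμ _).nonneg _)]
  ring

omit [Group G] in
theorem sum_mu {μ : G → (G →₀ ℝ)} (hμ : ∀ x, Pr (μ x)) (x : G) :
    ∑' h, ENNReal.ofReal (μ x h) = 1 := by
  rw [tsum_eq_sum (s := (μ x).support) (fun h hh => by
    rw [Finsupp.notMem_support_iff.1 hh, ENNReal.ofReal_zero])]
  rw [← ENNReal.ofReal_sum_of_nonneg (fun h _ => (hμ x).nonneg h)]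
  have h1 : ∑ h ∈ (μ x).support, μ x h = 1 := (hμ x).one
  rw [h1, ENNReal.ofReal_one]

theorem key {μ : G → (G →₀ ℝ)} (hμ : ∀ x, Pr (μ x)) {α : J → G → ℝ} {C : ℝ} (hC : 0 ≤ C)
    (hα : Bd α C) (ζ : L2 G) :
    ∑' z : G × (J × G), ENNReal.ofReal (‖tm μ α ζ z‖ ^ 2) ≤ ENNReal.ofReal (C * ‖ζ‖ ^ 2) := by
  have hj : ∀ h : G, ∑' j, ENNReal.ofReal (α j h ^ 2) ≤ ENNReal.ofReal C := by
    intro h
    rw [← ENNReal.ofReal_tsum_of_nonneg (fun j => sq_nonneg _) (hα h).1]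
    exact ENNReal.ofReal_le_ofReal (hα h).2
  have hz : ∑' x : G, ENNReal.ofReal (‖ζ x‖ ^ 2) = ENNReal.ofReal (‖ζ‖ ^ 2) := by
    rw [Pool.Agent.H812R3.KP.norm_sq_eq,
      ENNReal.ofReal_tsum_of_nonneg (fun x => sq_nonneg _) (Pool.Agent.H812R3.KP.summable_sq ζ)]
  calc ∑' z : G × (J × G), ENNReal.ofReal (‖tm μ α ζ z‖ ^ 2)
      = ∑' h : G, ∑' j : J, ∑' k : G, ENNReal.ofReal (α j h⁻¹ ^ 2) *
          (ENNReal.ofReal (μ (h * k) h) * ENNReal.ofReal (‖ζ (h * k)‖ ^ 2)) := by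
        rw [ENNReal.tsum_prod' (f := fun z : G × (J × G) => ENNReal.ofReal (‖tm μ α ζ z‖ ^ 2))]
        refine tsum_congr fun h => ?_
        rw [ENNReal.tsum_prod' (f := fun z : J × G => ENNReal.ofReal (‖tm μ α ζ (h, z)‖ ^ 2))]
        refine tsum_congr fun j => tsum_congr fun k => ?_
        rw [tm_sq hμ, ENNReal.ofReal_mul (sq_nonneg _), ENNReal.ofReal_mul ((hμ _).nonneg _)]
    _ = ∑' h : G, ∑' j : J, ENNReal.ofReal (α j h⁻¹ ^ 2) *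
          ∑' x : G, ENNReal.ofReal (μ x h) * ENNReal.ofReal (‖ζ x‖ ^ 2) := by
        refine tsum_congr fun h => tsum_congr fun j => ?_
        rw [ENNReal.tsum_mul_left]
        congr 1
        exact (Equiv.mulLeft h).tsum_eq
          (fun x => ENNReal.ofReal (μ x h) * ENNReal.ofReal (‖ζ x‖ ^ 2))
    _ ≤ ∑' h : G, ENNReal.ofReal C *
          ∑' x : G, ENNReal.ofReal (μ x h) * ENNReal.ofReal (‖ζ x‖ ^ 2) := by
        refine ENNReal.tsum_le_tsum fun h => ?_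
        rw [ENNReal.tsum_mul_right]
        gcongr
        exact hj _
    _ = ENNReal.ofReal C * ∑' x : G, ∑' h : G,
          ENNReal.ofReal (μ x h) * ENNReal.ofReal (‖ζ x‖ ^ 2) := by
        rw [ENNReal.tsum_mul_left, ENNReal.tsum_comm]
    _ = ENNReal.ofReal C * ∑' x : G, ENNReal.ofReal (‖ζ x‖ ^ 2) := by
        congr 1
        refine tsum_congr fun x => ?_
        rw [ENNReal.tsum_mul_right, sum_mu hμ, one_mul]
    _ = _ := by rw [hz, ENNReal.ofReal_mul hC]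

theorem summable_tm {μ : G → (G →₀ ℝ)} (hμ : ∀ x, Pr (μ x)) {α : J → G → ℝ} {C : ℝ} (hC : 0 ≤ C)
    (hα : Bd α C) (ζ : L2 G) : Summable fun z => ‖tm μ α ζ z‖ ^ 2 := by
  have h1 : ∑' z : G × (J × G), ENNReal.ofReal (‖tm μ α ζ z‖ ^ 2) ≠ ⊤ :=
    ne_top_of_le_ne_top ENNReal.ofReal_ne_top (key hμ hC hα ζ)
  have h2 := ENNReal.summable_toReal h1
  refine h2.congr fun z => ?_
  rw [ENNReal.toReal_ofReal (sq_nonneg _)]

theorem tsum_tm {μ : G → (G →₀ ℝ)} (hμ : ∀ x, Pr (μ x)) {α : J → G → ℝ} {C : ℝ} (hC : 0 ≤ C)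
    (hα : Bd α C) (ζ : L2 G) : ∑' z, ‖tm μ α ζ z‖ ^ 2 ≤ C * ‖ζ‖ ^ 2 := by
  have h1 := key hμ hC hα ζ
  rw [← ENNReal.ofReal_tsum_of_nonneg (fun z => sq_nonneg _) (summable_tm hμ hC hα ζ)] at h1
  exact (ENNReal.ofReal_le_ofReal_iff (by positivity)).1 h1

/-- the linear map -/
def Wl {μ : G → (G →₀ ℝ)} (hμ : ∀ x, Pr (μ x)) {α : J → G → ℝ} {C : ℝ} (hC : 0 ≤ C)
    (hα : Bd α C) : L2 G →ₗ[ℂ] L2 (G × (J × G)) where
  toFun ζ := ⟨tm μ α ζ, Pool.Agent.H812R3.KP.mem_of_summable (summable_tm hμ hC hα ζ)⟩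
  map_add' ζ η := by
    refine Subtype.ext (funext fun z => ?_)
    show wt μ α z * (ζ + η) (z.1 * z.2.2) = wt μ α z * ζ (z.1 * z.2.2) + wt μ α z * η (z.1 * z.2.2)
    rw [lp.coeFn_add, Pi.add_apply, mul_add]
  map_smul' c ζ := by
    refine Subtype.ext (funext fun z => ?_)
    show wt μ α z * (c • ζ) (z.1 * z.2.2) = c * (wt μ α z * ζ (z.1 * z.2.2))
    rw [lp.coeFn_smul, Pi.smul_apply, smul_eq_mul]
    ring

theorem Wl_bound {μ : G → (G →₀ ℝ)} (hμ : ∀ x, Pr (μ x)) {α : J → G → ℝ} {C : ℝ} (hC : 0 ≤ C)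
    (hα : Bd α C) (ζ : L2 G) : ‖Wl hμ hC hα ζ‖ ^ 2 ≤ C * ‖ζ‖ ^ 2 := by
  rw [Pool.Agent.H812R3.KP.norm_sq_eq]
  exact tsum_tm hμ hC hα ζ

end

end WEX

open WEX in
theorem s_wex : S_WEX := by
  intro G _ J μ α C hC hμ hα
  refine ⟨(Wl hμ hC hα).mkContinuous (√C) (fun ζ => ?_), ⟨fun ζ h j k => rfl, fun ζ => ?_⟩⟩
  · have h1 := Wl_bound hμ hC hα ζ
    have h2 : (√C * ‖ζ‖) ^ 2 = C * ‖ζ‖ ^ 2 := by rw [mul_pow, Real.sq_sqrt hC]
    rw [← h2] at h1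
    exact (sq_le_sq₀ (norm_nonneg _) (by positivity)).1 h1
  · exact Wl_bound hμ hC hα ζ

end Pool.Agent.N693.SSD
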