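import Pool.Agent.N693.SSD.Stm

/-!
# Project SS/D, FIN: the form `ω(E* F)` of a positive functional (helper693)
-/

set_option autoImplicit false

namespace Pool.Agent.N693.SSD

open Filter Topology
open scoped InnerProductSpace ComplexOrder
open Pool.Agent.H494R3.GT (L2 dl)
open Pool.Agent.N557.QW (lam rgt LG LK cf rc)
open Pool.Agent.N571.SS Pool.Agent.N571.SS.D
open ContinuousLinearMap (adjoint)

noncomputable section

variable {G : Type} [Group G]

lemma pos_sq {H : Type} [NormedAddCommGroup H] [InnerProductSpace ℂ H] [CompleteSpace H]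
    (P : H →L[ℂ] H) (h : 0 ≤ P) : ∃ S, P = star S * S :=
  CStarAlgebra.nonneg_iff_eq_star_mul_self.1 h

/-- the form `ω(E* F)` -/
def br (ω : B G →ₗ[ℂ] ℂ) {H : Type} [NormedAddCommGroup H] [InnerProductSpace ℂ H]
    [CompleteSpace H] (E F : L2 G →L[ℂ] H) : ℂ := ω ((adjoint E).comp F)

section

variable {ω : B G →ₗ[ℂ] ℂ} {H : Type} [NormedAddCommGroup H] [InnerProductSpace ℂ H]
  [CompleteSpace H] {H' : Type} [NormedAddCommGroup H'] [InnerProductSpace ℂ H'] [CompleteSpace H']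

lemma br_add_right (E F F' : L2 G →L[ℂ] H) : br ω E (F + F') = br ω E F + br ω E F' := by
  unfold br
  rw [ContinuousLinearMap.comp_add, map_add]

lemma br_smul_right (c : ℂ) (E F : L2 G →L[ℂ] H) : br ω E (c • F) = c * br ω E F := by
  unfold br
  rw [ContinuousLinearMap.comp_smul, map_smul, smul_eq_mul]

lemma br_add_left (E E' F : L2 G →L[ℂ] H) : br ω (E + E') F = br ω E F + br ω E' F := by
  unfold br
  rw [map_add, ContinuousLinearMap.add_comp, map_add]

lemma br_smul_left (c : ℂ) (E F : L2 G →L[ℂ] H) :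
    br ω (c • E) F = (starRingEnd ℂ) c * br ω E F := by
  unfold br
  rw [map_smulₛₗ, ContinuousLinearMap.smul_comp, map_smul, smul_eq_mul]

lemma br_sub_right (E F F' : L2 G →L[ℂ] H) : br ω E (F - F') = br ω E F - br ω E F' := by
  unfold br
  rw [ContinuousLinearMap.comp_sub, map_sub]

lemma br_sub_left (E E' F : L2 G →L[ℂ] H) : br ω (E - E') F = br ω E F - br ω E' F := by
  unfold br
  rw [map_sub, ContinuousLinearMap.sub_comp, map_sub]

lemma br_conj (hω : Om ω) (E F : L2 G →L[ℂ] H) : (starRingEnd ℂ) (br ω E F) = br ω F E := by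
  unfold br
  rw [← hω.adj]
  congr 1
  rw [ContinuousLinearMap.star_eq_adjoint, ContinuousLinearMap.adjoint_comp,
    ContinuousLinearMap.adjoint_adjoint]

lemma om_pos (hω : Om ω) {P : B G} (hP : P.IsPositive) : 0 ≤ ω P := by
  have h1 : 0 ≤ P := (ContinuousLinearMap.nonneg_iff_isPositive P).2 hP
  obtain ⟨S, hS⟩ := pos_sq P h1
  rw [hS]
  exact hω.nonneg S

lemma br_self (hω : Om ω) (E : L2 G →L[ℂ] H) : 0 ≤ br ω E E :=
  om_pos hω (ContinuousLinearMap.isPositive_adjoint_comp_self E)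

lemma br_self_re (hω : Om ω) (E : L2 G →L[ℂ] H) : 0 ≤ (br ω E E).re :=
  (Complex.le_def.1 (br_self hω E)).1

lemma br_self_eq (hω : Om ω) (E : L2 G →L[ℂ] H) : br ω E E = ((br ω E E).re : ℂ) := by
  have h := (Complex.le_def.1 (br_self hω E)).2
  apply Complex.ext
  · simp
  · rw [Complex.ofReal_im]
    exact h.symm

/-- the form as a core -/
@[reducible] def core (hω : Om ω) (H : Type) [NormedAddCommGroup H] [InnerProductSpace ℂ H]
    [CompleteSpace H] : PreInnerProductSpace.Core ℂ (L2 G →L[ℂ] H) where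
  inner E F := br ω E F
  conj_inner_symm E F := br_conj hω F E
  re_inner_nonneg E := br_self_re hω E
  add_left E F K := br_add_left E F K
  smul_left E F r := br_smul_left r E F

lemma br_cs (hω : Om ω) (E F : L2 G →L[ℂ] H) :
    ‖br ω E F‖ ^ 2 ≤ (br ω E E).re * (br ω F F).re := by
  have h := @InnerProductSpace.Core.inner_mul_inner_self_le ℂ (L2 G →L[ℂ] H) _ _ _
    (core hω H) E F
  have h1 : ‖br ω F E‖ = ‖br ω E F‖ := by
    rw [← br_conj hω E F, RCLike.norm_conj]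
  have h2 : ‖br ω E F‖ * ‖br ω F E‖ ≤ (br ω E E).re * (br ω F F).re := h
  rw [h1] at h2
  rw [sq]
  exact h2

/-- the seminorm -/
def nn (ω : B G →ₗ[ℂ] ℂ) (E : L2 G →L[ℂ] H) : ℝ := √((br ω E E).re)

lemma nn_nonneg (E : L2 G →L[ℂ] H) : 0 ≤ nn ω E := Real.sqrt_nonneg _

lemma nn_sq (hω : Om ω) (E : L2 G →L[ℂ] H) : nn ω E ^ 2 = (br ω E E).re :=
  Real.sq_sqrt (br_self_re hω E)

lemma br_le_nn (hω : Om ω) (E F : L2 G →L[ℂ] H) : ‖br ω E F‖ ≤ nn ω E * nn ω F := by
  have h := br_cs hω E F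
  rw [← nn_sq hω, ← nn_sq hω, ← mul_pow] at h
  exact (sq_le_sq₀ (norm_nonneg _) (mul_nonneg (nn_nonneg _) (nn_nonneg _))).1 h

lemma nn_add (hω : Om ω) (E F : L2 G →L[ℂ] H) : nn ω (E + F) ≤ nn ω E + nn ω F := by
  have h1 : nn ω (E + F) ^ 2 ≤ (nn ω E + nn ω F) ^ 2 := by
    rw [nn_sq hω, br_add_left, br_add_right, br_add_right, Complex.add_re, Complex.add_re,
      Complex.add_re, ← nn_sq hω, ← nn_sq hω]
    have h2 : (br ω E F).re ≤ nn ω E * nn ω F :=
      (Complex.re_le_norm _).trans (br_le_nn hω E F)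
    have h3 : (br ω F E).re ≤ nn ω F * nn ω E :=
      (Complex.re_le_norm _).trans (br_le_nn hω F E)
    nlinarith
  exact (sq_le_sq₀ (nn_nonneg _) (add_nonneg (nn_nonneg _) (nn_nonneg _))).1 h1

lemma nn_comp_left (hω : Om ω) (A : H →L[ℂ] H') (E : L2 G →L[ℂ] H) :
    nn ω (A.comp E) ≤ ‖A‖ * nn ω E := by
  have h1 : (((‖A‖ ^ 2 : ℝ) : ℂ) • ((adjoint E).comp E) -
      (adjoint (A.comp E)).comp (A.comp E) : B G).IsPositive := by
    rw [ContinuousLinearMap.isPositive_iff_complex]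
    intro x
    have e1 : ⟪(((‖A‖ ^ 2 : ℝ) : ℂ) • ((adjoint E).comp E) -
      (adjoint (A.comp E)).comp (A.comp E) : B G) x, x⟫_ℂ =
        ((‖A‖ ^ 2 * ‖E x‖ ^ 2 - ‖A (E x)‖ ^ 2 : ℝ) : ℂ) := by
      rw [sub_apply, smul_apply, inner_sub_left, inner_smul_left,
        ContinuousLinearMap.comp_apply, ContinuousLinearMap.comp_apply,
        ContinuousLinearMap.adjoint_inner_left, ContinuousLinearMap.adjoint_inner_left,
        inner_self_eq_norm_sq_to_K, inner_self_eq_norm_sq_to_K, ContinuousLinearMap.comp_apply]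
      simp
    rw [e1]
    constructor
    · generalize (‖A‖ ^ 2 * ‖E x‖ ^ 2 - ‖A (E x)‖ ^ 2) = r
      simp
    · have h2 : ‖A (E x)‖ ^ 2 ≤ ‖A‖ ^ 2 * ‖E x‖ ^ 2 := by
        rw [← mul_pow]
        exact pow_le_pow_left₀ (norm_nonneg _) (A.le_opNorm _) 2
      simp only [RCLike.re_to_complex, Complex.ofReal_re]
      linarith
  have h2 := (Complex.le_def.1 (om_pos hω h1)).1
  rw [map_sub, map_smul, smul_eq_mul, Complex.zero_re, Complex.sub_re, Complex.re_ofReal_mul] at h2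
  have h3 : nn ω (A.comp E) ^ 2 ≤ (‖A‖ * nn ω E) ^ 2 := by
    rw [mul_pow, nn_sq hω, nn_sq hω]
    unfold br
    linarith
  exact (sq_le_sq₀ (nn_nonneg _) (mul_nonneg (norm_nonneg _) (nn_nonneg _))).1 h3

lemma nn_le (hω : Om ω) (E : L2 G →L[ℂ] H) : nn ω E ≤ ‖E‖ := by
  have h := nn_comp_left hω E (ContinuousLinearMap.id ℂ (L2 G))
  have h1 : nn ω (ContinuousLinearMap.id ℂ (L2 G)) = 1 := by
    unfold nn br
    have : ((adjoint (ContinuousLinearMap.id ℂ (L2 G))).comp (ContinuousLinearMap.id ℂ (L2 G)) :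
        B G) = 1 := by
      rw [ContinuousLinearMap.comp_id]
      exact star_one (B G)
    rw [this, hω.one]
    simp
  rw [h1, mul_one, ContinuousLinearMap.comp_id] at h
  exact h

lemma nn_smul (hω : Om ω) (c : ℂ) (E : L2 G →L[ℂ] H) : nn ω (c • E) = ‖c‖ * nn ω E := by
  unfold nn
  rw [br_smul_left, br_smul_right, ← mul_assoc, Complex.conj_mul']
  have : ((‖c‖ : ℂ) ^ 2 * br ω E E).re = ‖c‖ ^ 2 * (br ω E E).re := by
    rw [← Complex.ofReal_pow, Complex.re_ofReal_mul]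
  rw [this, Real.sqrt_mul (by positivity), Real.sqrt_sq (norm_nonneg _)]

end

end

end Pool.Agent.N693.SSD
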