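import Pool.Agent.N693.SSD.Lim3

/-!
# Project SS/D, FIN: the state (helper693)
-/

set_option autoImplicit false
set_option linter.unusedSectionVars false

namespace Pool.Agent.N693.SSD

open Filter Topology
open scoped InnerProductSpace ComplexOrder
open Pool.Agent.H494R3.GT (L2 dl)
open Pool.Agent.N557.QW (lam rgt LG LK cf rc)
open Pool.Agent.N571.SS Pool.Agent.N571.SS.D
open ContinuousLinearMap (adjoint)

noncomputable section

/-- bounded sequences have limits along the hyperfilter -/
lemma exists_ulim (g : ℕ → ℂ) (C : ℝ) (h : ∀ k, ‖g k‖ ≤ C) :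
    ∃ z, Tendsto g (hyperfilter ℕ : Filter ℕ) (𝓝 z) := by
  have h1 : IsCompact (Metric.closedBall (0 : ℂ) C) := isCompact_closedBall _ _
  have h2 : ((hyperfilter ℕ).map g : Filter ℂ) ≤ 𝓟 (Metric.closedBall (0 : ℂ) C) := by
    rw [le_principal_iff]
    apply Filter.mem_map.2
    apply Filter.Eventually.of_forall
    intro k
    exact mem_closedBall_zero_iff.2 (h k)
  obtain ⟨z, -, hz⟩ := h1.ultrafilter_le_nhds _ h2
  exact ⟨z, hz⟩

variable {G : Type} [Group G]

section

variable {ω : B G →ₗ[ℂ] ℂ} (hω : Om ω) (hCPN : S_CPN) (hRO : S_RO) (hB : Bas G)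
  {J : ℕ → Type} {C : ℕ → ℝ}
  {s : ℕ → Finset G} {f : ℕ → G → ℝ} {W U : ∀ k, L2 G →L[ℂ] L2 (G × (J k × G))}
  (hS : Sq ω J C s f W U)

include hω hCPN hRO hB hS in
theorem exists_state : ∃ φ : B G →ₗ[ℂ] ℂ, St φ ∧ ∀ u ∈ LG G, Un u →
    (∀ T : B G, ω (star u * T * u) = ω (star (Rm u) * T * Rm u)) →
    (∀ T : B G, ω (star (star u) * T * star u) = ω (star (Rm (star u)) * T * Rm (star u))) →
    u ∈ Cen φ := by
  -- the values
  obtain ⟨Q, hQ⟩ : ∃ Q : ℕ → B G → ℂ, Q = fun k T => br ω (W k) ((pj (J k) T).comp (W k)) :=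
    ⟨_, rfl⟩
  have hnW : ∀ k, nn ω (W k) ≤ √2 := fun k => (nn_le hω _).trans (norm_W_le hω hS k)
  have hnT : ∀ k (T : B G), nn ω ((pj (J k) T).comp (W k)) ≤ ‖T‖ * √2 := by
    intro k T
    refine (nn_comp_left hω _ _).trans ?_
    exact mul_le_mul (pj_norm _ _) (hnW k) (nn_nonneg _) (norm_nonneg _)
  have hQb : ∀ T k, ‖Q k T‖ ≤ √2 * (‖T‖ * √2) := by
    intro T k
    rw [hQ]
    refine (br_le_nn hω _ _).trans ?_
    exact mul_le_mul (hnW k) (hnT k T) (nn_nonneg _) (Real.sqrt_nonneg _)
  have hex : ∀ T, ∃ z, Tendsto (fun k => Q k T) (hyperfilter ℕ : Filter ℕ) (𝓝 z) := fun T =>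
    exists_ulim _ _ (hQb T)
  choose φ0 hφ0 using hex
  have hadd : ∀ S T, φ0 (S + T) = φ0 S + φ0 T := by
    intro S T
    refine tendsto_nhds_unique (hφ0 (S + T)) (((hφ0 S).add (hφ0 T)).congr fun k => ?_)
    rw [hQ]
    simp only
    rw [pj_add, ContinuousLinearMap.add_comp, br_add_right]
  have hsmul : ∀ (c : ℂ) T, φ0 (c • T) = c • φ0 T := by
    intro c T
    refine tendsto_nhds_unique (hφ0 (c • T)) (((hφ0 T).const_smul c).congr fun k => ?_)
    rw [hQ]
    simp only
    rw [pj_smul, ContinuousLinearMap.smul_comp, br_smul_right, smul_eq_mul]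
  let φ : B G →ₗ[ℂ] ℂ := { toFun := φ0, map_add' := hadd, map_smul' := hsmul }
  have hφ : ∀ T, φ T = φ0 T := fun _ => rfl
  refine ⟨φ, ⟨?_, ?_⟩, ?_⟩
  · intro T
    rw [hφ]
    have h1 : ∀ k, 0 ≤ Q k (star T * T) := by
      intro k
      rw [hQ]
      simp only
      rw [← br_pj]
      exact br_self hω _
    exact ge_of_tendsto' (hφ0 (star T * T)) h1
  · intro x hx
    rw [hφ]
    have h1 := lim_W hω hCPN hB hS hx (one_mem' (G := G)) (one_mem' (G := G))
    have h2 : tau (star (1 : B G) * x * 1) = tau x := by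
      rw [star_one, one_mul, mul_one]
    rw [h2] at h1
    have h3 : (hyperfilter ℕ : Filter ℕ) ≤ atTop := Nat.hyperfilter_le_atTop
    refine tendsto_nhds_unique (hφ0 x) ((h1.mono_left h3).congr fun k => ?_)
    rw [hQ]
    rfl
  · intro u hu hun hst hst'
    refine ⟨hu, fun T => ?_⟩
    rw [hφ, hφ]
    have h3 : (hyperfilter ℕ : Filter ℕ) ≤ atTop := Nat.hyperfilter_le_atTop
    -- the error terms
    have t1 := lim_comm hω hCPN hB hS hu
    have t2 := lim_comm hω hCPN hB hS (star_mem' hu)
    have hkey : ∀ k, ‖Q k (T * u) - Q k (u * T)‖ ≤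
        nn ω ((pj (J k) u).comp (W k) - (W k).comp u) * (√2 * ‖T‖) +
        nn ω ((pj (J k) (star u)).comp (W k) - (W k).comp (star u)) * (√2 * ‖T‖) := by
      intro k
      have hu1 := br_uv hω hCPN hRO hB hS k hu hun hst hst' T (star_mem' hu)
        (one_mem' (G := G))
      have e1 : (El (W k) 1 (star u)).comp u = W k := by
        unfold El
        rw [pj_one]
        have : ((1 : B (G × (J k × G))).comp ((W k).comp (star u))).comp u =
          (W k).comp (star u * u) := rfl
        rw [this, hun.left]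
        exact ContinuousLinearMap.comp_id _
      have e2 : (El (W k) T 1).comp u = (pj (J k) T).comp ((W k).comp u) := by
        unfold El
        have : ((pj (J k) T).comp ((W k).comp (1 : B G))).comp u =
          (pj (J k) T).comp ((W k).comp (1 * u)) := rfl
        rw [this, one_mul]
      have e3 : El (W k) 1 (star u) = (W k).comp (star u) := by
        unfold El
        rw [pj_one]
        exact ContinuousLinearMap.id_comp _
      have e4 : El (W k) T 1 = (pj (J k) T).comp (W k) := by
        unfold El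
        have : (W k).comp (1 : B G) = W k := ContinuousLinearMap.comp_id _
        rw [this]
      rw [e1, e2, e3, e4] at hu1
      have e5 : Q k (T * u) = br ω (W k) ((pj (J k) T).comp ((W k).comp u)) +
          br ω (W k) ((pj (J k) T).comp ((pj (J k) u).comp (W k) - (W k).comp u)) := by
        rw [hQ]
        simp only
        rw [← br_add_right, ← ContinuousLinearMap.comp_add, add_sub_cancel, pj_mul]
        rfl
      have e6 : Q k (u * T) = br ω ((W k).comp (star u)) ((pj (J k) T).comp (W k)) +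
          br ω ((pj (J k) (star u)).comp (W k) - (W k).comp (star u))
            ((pj (J k) T).comp (W k)) := by
        rw [hQ]
        simp only
        rw [← br_add_left, add_sub_cancel, br_pj, star_star]
      rw [e5, e6, hu1, add_sub_add_left_eq_sub]
      refine (norm_sub_le _ _).trans (add_le_add ?_ ?_)
      · refine (br_le_nn hω _ _).trans ?_
        have k1 := nn_comp_left hω (pj (J k) T) ((pj (J k) u).comp (W k) - (W k).comp u)
        have k2 : ‖pj (J k) T‖ * nn ω ((pj (J k) u).comp (W k) - (W k).comp u) ≤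
            ‖T‖ * nn ω ((pj (J k) u).comp (W k) - (W k).comp u) :=
          mul_le_mul_of_nonneg_right (pj_norm _ _) (nn_nonneg _)
        have k3 : nn ω (W k) * nn ω ((pj (J k) T).comp
            ((pj (J k) u).comp (W k) - (W k).comp u)) ≤
            √2 * (‖T‖ * nn ω ((pj (J k) u).comp (W k) - (W k).comp u)) :=
          mul_le_mul (hnW k) (k1.trans k2) (nn_nonneg _) (Real.sqrt_nonneg _)
        refine k3.trans (le_of_eq (by ring))
      · refine (br_le_nn hω _ _).trans ?_
        refine mul_le_mul_of_nonneg_left ?_ (nn_nonneg _)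
        refine (hnT k T).trans (le_of_eq (by ring))
    have t3 := (t1.mul_const (√2 * ‖T‖)).add (t2.mul_const (√2 * ‖T‖))
    rw [zero_mul, add_zero] at t3
    have t4 : Tendsto (fun k => Q k (T * u) - Q k (u * T)) atTop (𝓝 0) :=
      squeeze_zero_norm hkey t3
    have t5 := (hφ0 (T * u)).sub (hφ0 (u * T))
    have t6 := tendsto_nhds_unique t5 (t4.mono_left h3)
    exact (sub_eq_zero.mp t6).symm

end

end

end Pool.Agent.N693.SSD
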