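import Pool.Agent.N693.SSD.Br

/-!
# Project SS/D, FIN: the limit argument (helper693)
-/

set_option autoImplicit false
set_option linter.unusedSectionVars false

namespace Pool.Agent.N693.SSD

open Filter Topology
open scoped InnerProductSpace ComplexOrder
open Pool.Agent.H494R3.GT (L2 dl)
open Pool.Agent.N557.QW (lam rgt LG LK cf rc)
open Pool.Agent.N571.SS Pool.Agent.N571.SS.D
open ContinuousLinearMap (adjoint)

noncomputable section

variable {G : Type} [Group G]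

/-! ### `pj` -/

lemma pj_add (J : Type) (S T : B G) : pj J (S + T) = pj J S + pj J T := map_add _ _ _

lemma pj_smul (J : Type) (c : ℂ) (T : B G) : pj J (c • T) = c • pj J T := map_smul _ _ _

lemma pj_zero (J : Type) : pj J (0 : B G) = 0 := map_zero _

lemma pj_mul (J : Type) (S T : B G) : pj J (S * T) = pj J S * pj J T :=
  Pool.Agent.H812R3.KP.amp_mul _ _ _

lemma pj_one (J : Type) : pj J (1 : B G) = 1 := Pool.Agent.H812R3.KP.amp_one _

lemma pj_star (J : Type) (T : B G) : pj J (star T) = star (pj J T) :=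
  Pool.Agent.H812R3.KP.amp_star _ _

lemma pj_norm (J : Type) (T : B G) : ‖pj J T‖ ≤ ‖T‖ := Pool.Agent.H812R3.KP.norm_ampF_le _ _

/-! ### `Cp` -/

section cp

variable {X H : Type} [NormedAddCommGroup H] [InnerProductSpace ℂ H]
  {H' : Type} [NormedAddCommGroup H'] [InnerProductSpace ℂ H']

lemma Cp.zero : Cp (0 : L2 X →L[ℂ] H) := by
  intro ε hε
  refine ⟨∅, fun ζ _ => ?_⟩
  rw [zero_apply, norm_zero]
  positivity

lemma Cp.add {E F : L2 X →L[ℂ] H} (hE : Cp E) (hF : Cp F) : Cp (E + F) := by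
  classical
  intro ε hε
  obtain ⟨A, hA⟩ := hE (ε / 2) (by positivity)
  obtain ⟨A', hA'⟩ := hF (ε / 2) (by positivity)
  refine ⟨A ∪ A', fun ζ hζ => ?_⟩
  have h1 := hA ζ fun g hg => hζ g (Finset.mem_union_left _ hg)
  have h2 := hA' ζ fun g hg => hζ g (Finset.mem_union_right _ hg)
  rw [add_apply]
  refine (norm_add_le _ _).trans ?_
  linarith

lemma Cp.comp {E : L2 X →L[ℂ] H} (hE : Cp E) (A : H →L[ℂ] H') : Cp (A.comp E) := by
  intro ε hε
  obtain ⟨F, hF⟩ := hE (ε / (‖A‖ + 1)) (by positivity)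
  refine ⟨F, fun ζ hζ => ?_⟩
  have h1 := hF ζ hζ
  rw [ContinuousLinearMap.comp_apply]
  refine (A.le_opNorm _).trans ?_
  have h2 : ‖A‖ * ‖E ζ‖ ≤ (‖A‖ + 1) * (ε / (‖A‖ + 1) * ‖ζ‖) :=
    mul_le_mul (by linarith) h1 (norm_nonneg _) (by positivity)
  refine h2.trans (le_of_eq ?_)
  have : ‖A‖ + 1 ≠ 0 := by positivity
  field_simp

lemma Cp.smul {E : L2 X →L[ℂ] H} (hE : Cp E) (c : ℂ) : Cp (c • E) := by
  have h := hE.comp (c • ContinuousLinearMap.id ℂ H)
  have e : (c • ContinuousLinearMap.id ℂ H).comp E = c • E := by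
    ext ζ
    simp
  rwa [e] at h

lemma Cp.sum {ι : Type} (s : Finset ι) {E : ι → L2 X →L[ℂ] H} (hE : ∀ i ∈ s, Cp (E i)) :
    Cp (∑ i ∈ s, E i) := by
  classical
  induction s using Finset.induction_on with
  | empty => rw [Finset.sum_empty]; exact Cp.zero
  | insert a s ha ih =>
    rw [Finset.sum_insert ha]
    exact (hE a (Finset.mem_insert_self _ _)).add
      (ih fun i hi => hE i (Finset.mem_insert_of_mem hi))

end cp

/-! ### the trace -/

lemma one_mem' : (1 : B G) ∈ LG G := (LG G).one_mem'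

lemma mul_mem' {x y : B G} (hx : x ∈ LG G) (hy : y ∈ LG G) : x * y ∈ LG G :=
  (LG G).toStarSubalgebra.mul_mem hx hy

lemma star_mem' {x : B G} (hx : x ∈ LG G) : star x ∈ LG G :=
  (LG G).toStarSubalgebra.star_mem' hx

lemma sub_mem'' {x y : B G} (hx : x ∈ LG G) (hy : y ∈ LG G) : x - y ∈ LG G :=
  (LG G).toStarSubalgebra.sub_mem hx hy

lemma lam_mem' (g : G) : (lam g : B G) ∈ LG G := Pool.Agent.N557.QW.lam_mem g

lemma mf_mem (s : Finset G) (f : G → ℝ) (x : B G) : mf s f x ∈ LG G := by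
  unfold mf
  exact (LG G).toStarSubalgebra.sum_mem fun g _ =>
    (LG G).toStarSubalgebra.smul_mem (lam_mem' g) _

lemma norm_dl' (g : G) : ‖(dl g : L2 G)‖ = 1 := Pool.Agent.H812R3.KP.norm_dl g

lemma star_inner (b : B G) (v w : L2 G) : ⟪v, (star b) w⟫_ℂ = ⟪b v, w⟫_ℂ := by
  rw [ContinuousLinearMap.star_eq_adjoint, ContinuousLinearMap.adjoint_inner_right]

lemma tau_add (x y : B G) : tau (x + y) = tau x + tau y := by
  unfold tau
  rw [add_apply, inner_add_right]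

lemma tau_sub (x y : B G) : tau (x - y) = tau x - tau y := by
  unfold tau
  rw [sub_apply, inner_sub_right]

lemma tau_star_mul (x y : B G) : tau (star x * y) = ⟪x (dl 1), y (dl 1)⟫_ℂ := by
  unfold tau
  rw [mul_apply_eq_comp, star_inner]

lemma tau_self (x : B G) : (tau (star x * x)).re = ‖x (dl 1)‖ ^ 2 := by
  rw [tau_star_mul, ← RCLike.re_to_complex, inner_self_eq_norm_sq (𝕜 := ℂ)]

lemma tau_comm (hB : Bas G) {x y : B G} (hx : x ∈ LG G) (hy : y ∈ LG G) :
    tau (x * y) = tau (y * x) := by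
  have h1 : tau (x * y) = ⟪(star x) (dl 1), y (dl 1)⟫_ℂ := by
    rw [← tau_star_mul, star_star]
  have h2 : tau (y * x) = ⟪(star y) (dl 1), x (dl 1)⟫_ℂ := by
    rw [← tau_star_mul, star_star]
  rw [h1, h2, ← hB.Rm_dl y hy, ← hB.Rm_dl (star y) (star_mem' hy), hB.Rm_star,
    ← star_inner, star_star]
  have h3 := congrArg (fun z : B G => z (dl 1)) (hB.Rm_comm y hy x hx)
  simp only [mul_apply_eq_comp] at h3
  rw [← star_inner, star_star]
  exact congrArg (fun v => ⟪dl (1 : G), v⟫_ℂ) h3.symm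

/-! ### one level -/

/-- the data of one level -/
structure Lev (ω : B G →ₗ[ℂ] ℂ) {J : Type} (C : ℝ) (s : Finset G) (f : G → ℝ)
    (W U : L2 G →L[ℂ] L2 (G × (J × G))) : Prop where
  bW : ∀ ζ : L2 G, ‖W ζ‖ ^ 2 ≤ C * ‖ζ‖ ^ 2
  bU : ∀ ζ : L2 G, ‖U ζ‖ ^ 2 ≤ C * ‖ζ‖ ^ 2
  cc : ∀ x ∈ LG G, Cp ((adjoint U).comp ((pj J x).comp W) - mf s f x)
  cd : ∀ t : G, Cp (W.comp (rgt t) - (ro J t).comp W)

section lev

variable {ω : B G →ₗ[ℂ] ℂ} (hω : Om ω) (hCPN : S_CPN)

include hω hCPN in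
lemma nn_cp {H : Type} [NormedAddCommGroup H] [InnerProductSpace ℂ H] [CompleteSpace H]
    {E : L2 G →L[ℂ] H} (hE : Cp E) (b : B G) : nn ω (E.comp b) = 0 := by
  have h := hCPN G ω hω H E hE b
  have e : (adjoint (E.comp b)).comp (E.comp b) = star b * (adjoint E).comp E * b := by
    rw [ContinuousLinearMap.adjoint_comp]
    rfl
  unfold nn br
  rw [e, h]
  simp

lemma opnorm_le {H : Type} [NormedAddCommGroup H] [InnerProductSpace ℂ H]
    {W : L2 G →L[ℂ] H} {C : ℝ} (hC : 0 ≤ C) (h : ∀ ζ : L2 G, ‖W ζ‖ ^ 2 ≤ C * ‖ζ‖ ^ 2) :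
    ‖W‖ ≤ √C := by
  apply ContinuousLinearMap.opNorm_le_bound _ (Real.sqrt_nonneg _)
  intro ζ
  apply le_of_sq_le_sq' (by positivity)
  rw [mul_pow, Real.sq_sqrt hC]
  exact h ζ
where
  le_of_sq_le_sq' {a b : ℝ} (hb : 0 ≤ b) (h : a ^ 2 ≤ b ^ 2) : a ≤ b := by
    by_contra hc
    push Not at hc
    nlinarith

include hω in
/-- `‖E b‖ ≤ ‖E‖ ‖b‖₂` -/
lemma nn_comp_b {H : Type} [NormedAddCommGroup H] [InnerProductSpace ℂ H] [CompleteSpace H]
    (E : L2 G →L[ℂ] H) (b : B G) : nn ω (E.comp b) ≤ ‖E‖ * nn ω b := nn_comp_left hω E b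

include hω in
lemma nn_b_sq {b : B G} (hb : b ∈ LG G) : nn ω b ^ 2 = (tau (star b * b)).re := by
  rw [nn_sq hω]
  unfold br
  have e : (adjoint b).comp b = star b * b := rfl
  rw [e, hω.left _ (mul_mem' (star_mem' hb) hb)]

include hω hCPN in
lemma lev_U {J : Type} {C : ℝ} {s : Finset G} {f : G → ℝ}
    {W U : L2 G →L[ℂ] L2 (G × (J × G))} (h : Lev ω C s f W U) {x : B G} (hx : x ∈ LG G)
    (a b : B G) :
    br ω (U.comp b) ((pj J x).comp (W.comp a)) = ω (star b * mf s f x * a) := by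
  obtain ⟨K, hK⟩ : ∃ K : B G, K = (adjoint U).comp ((pj J x).comp W) - mf s f x := ⟨_, rfl⟩
  have hcp : Cp K := by rw [hK]; exact h.cc x hx
  have e1 : (adjoint (U.comp b)).comp ((pj J x).comp (W.comp a)) =
      star b * mf s f x * a + (adjoint b).comp (K.comp a) := by
    have e2 : (adjoint U).comp ((pj J x).comp W) = mf s f x + K := by rw [hK]; abel
    have e3 : (adjoint (U.comp b)).comp ((pj J x).comp (W.comp a)) =
        star b * ((adjoint U).comp ((pj J x).comp W)) * a := by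
      rw [ContinuousLinearMap.adjoint_comp]
      rfl
    rw [e3, e2, mul_add, add_mul]
    rfl
  have e4 : br ω b (K.comp a) = 0 := by
    have h1 := br_le_nn hω b (K.comp a)
    rw [nn_cp hω hCPN hcp, mul_zero] at h1
    exact norm_le_zero_iff.1 h1
  unfold br at e4 ⊢
  rw [e1, map_add, e4, add_zero]

end lev

end

end Pool.Agent.N693.SSD
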