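import Pool.Agent.N693.SSD.Lim

/-!
# Project SS/D, FIN: the sequence of levels (helper693)
-/

set_option autoImplicit false
set_option linter.unusedSectionVars false

namespace Pool.Agent.N693.SSD

open Filter Topology
open scoped InnerProductSpace ComplexOrder
open Pool.Agent.H494R3.GT (L2 dl)
open Pool.Agent.N557.QW (lam rgt LG LK cf rc)
open Pool.Agent.N571.SS Pool.Agent.N571.SS.D
open ContinuousLinearMap (adjoint)

noncomputable section

variable {G : Type} [Group G]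

/-- the sequence of levels -/
structure Sq (ω : B G →ₗ[ℂ] ℂ) (J : ℕ → Type) (C : ℕ → ℝ) (s : ℕ → Finset G) (f : ℕ → G → ℝ)
    (W U : ∀ k, L2 G →L[ℂ] L2 (G × (J k × G))) : Prop where
  lev : ∀ k, Lev ω (C k) (s k) (f k) (W k) (U k)
  C0 : ∀ k, 0 ≤ C k
  C2 : ∀ k, C k ≤ 2
  C1 : Tendsto C atTop (𝓝 1)
  dc : ∀ x : B G, Tendsto (fun k => ‖(mf (s k) (f k) x - x) (dl 1)‖) atTop (𝓝 0)
  mn : ∀ k, ∀ x ∈ LG G, ‖mf (s k) (f k) x‖ ≤ C k * ‖x‖

lemma tau_bound (hB : Bas G) {z a : B G} (b : B G) (hz : z ∈ LG G) (ha : a ∈ LG G) :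
    ‖tau (star b * z * a)‖ ≤ ‖b‖ * ‖a‖ * ‖z (dl 1)‖ := by
  have h1 : tau (star b * z * a) = ⟪b (dl 1), (Rm a) (z (dl 1))⟫_ℂ := by
    rw [mul_assoc, tau_star_mul, mul_apply_eq_comp, ← hB.Rm_dl a ha]
    have h3 := congrArg (fun y : B G => y (dl 1)) (hB.Rm_comm a ha z hz)
    simp only [mul_apply_eq_comp] at h3
    exact (congrArg (fun v => ⟪b (dl (1 : G)), v⟫_ℂ) h3.symm)
  rw [h1]
  calc ‖⟪b (dl 1), (Rm a) (z (dl 1))⟫_ℂ‖ ≤ ‖b (dl 1)‖ * ‖(Rm a) (z (dl 1))‖ :=
        norm_inner_le_norm _ _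
    _ ≤ (‖b‖ * ‖(dl 1 : L2 G)‖) * (‖Rm a‖ * ‖z (dl 1)‖) :=
        mul_le_mul (b.le_opNorm _) ((Rm a).le_opNorm _) (norm_nonneg _) (by positivity)
    _ = ‖b‖ * ‖a‖ * ‖z (dl 1)‖ := by rw [norm_dl', hB.Rm_norm]; ring

lemma br_pj {ω : B G →ₗ[ℂ] ℂ} {J : Type} (S T : B G) (E F : L2 G →L[ℂ] L2 (G × (J × G))) :
    br ω ((pj J S).comp E) ((pj J T).comp F) = br ω E ((pj J (star S * T)).comp F) := by
  unfold br
  rw [ContinuousLinearMap.adjoint_comp, pj_mul, pj_star]
  rfl

section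

variable {ω : B G →ₗ[ℂ] ℂ} (hω : Om ω) (hCPN : S_CPN) (hB : Bas G) {J : ℕ → Type} {C : ℕ → ℝ}
  {s : ℕ → Finset G} {f : ℕ → G → ℝ} {W U : ∀ k, L2 G →L[ℂ] L2 (G × (J k × G))}
  (hS : Sq ω J C s f W U)

include hω hCPN hB hS in
lemma lim_U {x a b : B G} (hx : x ∈ LG G) (ha : a ∈ LG G) (hb : b ∈ LG G) :
    Tendsto (fun k => br ω ((U k).comp b) ((pj (J k) x).comp ((W k).comp a))) atTop
      (𝓝 (tau (star b * x * a))) := by
  have e : ∀ k, br ω ((U k).comp b) ((pj (J k) x).comp ((W k).comp a)) =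
      tau (star b * x * a) + tau (star b * (mf (s k) (f k) x - x) * a) := by
    intro k
    rw [lev_U hω hCPN (hS.lev k) hx, hω.left _ (mul_mem' (mul_mem' (star_mem' hb)
      (mf_mem _ _ _)) ha), ← tau_add]
    congr 1
    rw [mul_sub, sub_mul]
    abel
  simp_rw [e]
  have h2 : Tendsto (fun k => tau (star b * (mf (s k) (f k) x - x) * a)) atTop (𝓝 0) := by
    apply squeeze_zero_norm (fun k => tau_bound hB b (sub_mem'' (mf_mem _ _ _) hx) ha)
    simpa using (hS.dc x).const_mul (‖b‖ * ‖a‖)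
  simpa using (tendsto_const_nhds (x := tau (star b * x * a))).add h2

include hω hS in
lemma norm_W_le (k : ℕ) : ‖W k‖ ≤ √2 :=
  (opnorm_le (hS.C0 k) (hS.lev k).bW).trans (Real.sqrt_le_sqrt (hS.C2 k))

lemma nn_sq_le (hω : Om ω) {H : Type} [NormedAddCommGroup H] [InnerProductSpace ℂ H]
    [CompleteSpace H] {W : L2 G →L[ℂ] H} {C : ℝ} (hC : 0 ≤ C)
    (h : ∀ ζ : L2 G, ‖W ζ‖ ^ 2 ≤ C * ‖ζ‖ ^ 2) (b : B G) :
    nn ω (W.comp b) ^ 2 ≤ C * nn ω b ^ 2 := by
  have h1 := nn_comp_left hω W b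
  have h2 := opnorm_le hC h
  have h3 : nn ω (W.comp b) ≤ √C * nn ω b :=
    h1.trans (mul_le_mul_of_nonneg_right h2 (nn_nonneg _))
  have h4 := pow_le_pow_left₀ (nn_nonneg _) h3 2
  rwa [mul_pow, Real.sq_sqrt hC] at h4

include hω hCPN hB hS in
lemma lim_WU {b : B G} (hb : b ∈ LG G) :
    Tendsto (fun k => nn ω ((W k - U k).comp b)) atTop (𝓝 0) := by
  have h1 : ∀ k, nn ω ((W k - U k).comp b) ^ 2 ≤
      2 * C k * nn ω b ^ 2 - 2 * (br ω ((U k).comp b) ((W k).comp b)).re := by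
    intro k
    have e : (W k - U k).comp b = (W k).comp b - (U k).comp b :=
      ContinuousLinearMap.sub_comp _ _ _
    rw [e, nn_sq hω, br_sub_left, br_sub_right, br_sub_right]
    have h2 := nn_sq_le hω (hS.C0 k) (hS.lev k).bW b
    have h3 := nn_sq_le hω (hS.C0 k) (hS.lev k).bU b
    rw [nn_sq hω] at h2 h3
    have h4 : (br ω ((W k).comp b) ((U k).comp b)).re =
        (br ω ((U k).comp b) ((W k).comp b)).re := by
      rw [← br_conj hω, Complex.conj_re]
    rw [Complex.sub_re, Complex.sub_re, Complex.sub_re, h4]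
    linarith
  have h2 : Tendsto (fun k => 2 * C k * nn ω b ^ 2 -
      2 * (br ω ((U k).comp b) ((W k).comp b)).re) atTop (𝓝 0) := by
    have t1 := lim_U hω hCPN hB hS (one_mem' (G := G)) hb hb
    have t2 := (Complex.continuous_re.tendsto _).comp t1
    have t3 := ((hS.C1.const_mul 2).mul_const (nn ω b ^ 2)).sub (t2.const_mul 2)
    have e : 2 * 1 * nn ω b ^ 2 - 2 * (tau (star b * 1 * b)).re = 0 := by
      have e0 : star b * 1 * b = star b * b := by rw [mul_one]
      rw [e0, nn_b_sq hω hb]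
      ring
    rw [e] at t3
    refine t3.congr fun k => ?_
    simp only [Function.comp_apply, pj_one]
    rfl
  have h3 := h2.sqrt
  rw [Real.sqrt_zero] at h3
  exact squeeze_zero (fun k => nn_nonneg _) (fun k => Real.le_sqrt_of_sq_le (h1 k)) h3

include hω hCPN hB hS in
lemma lim_W {x a b : B G} (hx : x ∈ LG G) (ha : a ∈ LG G) (hb : b ∈ LG G) :
    Tendsto (fun k => br ω ((W k).comp b) ((pj (J k) x).comp ((W k).comp a))) atTop
      (𝓝 (tau (star b * x * a))) := by
  have e : ∀ k, br ω ((W k).comp b) ((pj (J k) x).comp ((W k).comp a)) =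
      br ω ((U k).comp b) ((pj (J k) x).comp ((W k).comp a)) +
      br ω ((W k - U k).comp b) ((pj (J k) x).comp ((W k).comp a)) := by
    intro k
    rw [← br_add_left, ← ContinuousLinearMap.add_comp]
    congr 2
    abel
  simp_rw [e]
  have h2 : Tendsto (fun k => br ω ((W k - U k).comp b) ((pj (J k) x).comp ((W k).comp a)))
      atTop (𝓝 0) := by
    have hb' : ∀ k, ‖br ω ((W k - U k).comp b) ((pj (J k) x).comp ((W k).comp a))‖ ≤
        nn ω ((W k - U k).comp b) * (‖x‖ * (√2 * ‖a‖)) := by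
      intro k
      refine (br_le_nn hω _ _).trans (mul_le_mul_of_nonneg_left ?_ (nn_nonneg _))
      refine (nn_comp_left hω _ _).trans ?_
      refine mul_le_mul (pj_norm _ _) ?_ (nn_nonneg _) (norm_nonneg _)
      refine (nn_comp_left hω _ _).trans ?_
      exact mul_le_mul (norm_W_le hω hS k) (nn_le hω a) (nn_nonneg _) (Real.sqrt_nonneg _)
    apply squeeze_zero_norm hb'
    simpa using (lim_WU hω hCPN hB hS hb).mul_const (‖x‖ * (√2 * ‖a‖))
  simpa using (lim_U hω hCPN hB hS hx ha hb).add h2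

include hω hCPN hB hS in
lemma lim_comm {u : B G} (hu : u ∈ LG G) :
    Tendsto (fun k => nn ω ((pj (J k) u).comp (W k) - (W k).comp u)) atTop (𝓝 0) := by
  have e : ∀ k, nn ω ((pj (J k) u).comp (W k) - (W k).comp u) ^ 2 =
      (br ω ((W k).comp (1 : B G)) ((pj (J k) (star u * u)).comp ((W k).comp (1 : B G)))).re -
      2 * (br ω ((W k).comp u) ((pj (J k) u).comp ((W k).comp (1 : B G)))).re +
      (br ω ((W k).comp u) ((pj (J k) (1 : B G)).comp ((W k).comp u))).re := by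
    intro k
    have e1 : (W k).comp (1 : B G) = W k := ContinuousLinearMap.comp_id _
    have e2 : (pj (J k) (1 : B G)).comp ((W k).comp u) = (W k).comp u := by
      rw [pj_one]
      exact ContinuousLinearMap.id_comp _
    rw [nn_sq hω, br_sub_left, br_sub_right, br_sub_right, br_pj, e1, e2,
      Complex.sub_re, Complex.sub_re, Complex.sub_re]
    have h4 : (br ω ((pj (J k) u).comp (W k)) ((W k).comp u)).re =
        (br ω ((W k).comp u) ((pj (J k) u).comp (W k))).re := by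
      rw [← br_conj hω, Complex.conj_re]
    rw [h4]
    ring
  have t1 := lim_W hω hCPN hB hS (mul_mem' (star_mem' hu) hu) (one_mem' (G := G))
    (one_mem' (G := G))
  have t2 := lim_W hω hCPN hB hS hu (one_mem' (G := G)) hu
  have t3 := lim_W hω hCPN hB hS (one_mem' (G := G)) hu hu
  have h := (((Complex.continuous_re.tendsto _).comp t1).sub
    (((Complex.continuous_re.tendsto _).comp t2).const_mul 2)).add
      ((Complex.continuous_re.tendsto _).comp t3)
  have e3 : (tau (star (1 : B G) * (star u * u) * 1)).re - 2 * (tau (star u * u * 1)).re +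
      (tau (star u * 1 * u)).re = 0 := by
    rw [star_one, one_mul, mul_one, mul_one]
    ring
  rw [e3] at h
  have h' : Tendsto (fun k => nn ω ((pj (J k) u).comp (W k) - (W k).comp u) ^ 2) atTop (𝓝 0) :=
    h.congr fun k => (e k).symm
  have h3 := h'.sqrt
  rw [Real.sqrt_zero] at h3
  refine h3.congr fun k => Real.sqrt_sq (nn_nonneg _)

end

end

end Pool.Agent.N693.SSD
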