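import Pool.Agent.N693.SSD.Lim2

/-!
# Project SS/D, FIN: invariance at one level (helper693)
-/

set_option autoImplicit false
set_option linter.unusedSectionVars false

namespace Pool.Agent.N693.SSD

open Filter Topology
open scoped InnerProductSpace ComplexOrder
open Pool.Agent.H494R3.GT (L2 dl)
open Pool.Agent.N557.QW (lam rgt LG LK cf rc)
open Pool.Agent.N571.SS Pool.Agent.N571.SS.D
open ContinuousLinearMap (adjoint)

noncomputable section

variable {G : Type} [Group G]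

lemma norm_star' {H : Type} [NormedAddCommGroup H] [InnerProductSpace ℂ H] [CompleteSpace H]
    (T : H →L[ℂ] H) : ‖star T‖ = ‖T‖ := norm_star T

lemma Rm_sum (hB : Bas G) (s : Finset G) (c : G → ℂ) :
    Rm (∑ g ∈ s, c g • (lam g : B G)) = ∑ g ∈ s, c g • (rgt g : B G) := by
  let φ : B G →+ B G := AddMonoidHom.mk' Rm hB.Rm_add
  have h : Rm (∑ g ∈ s, c g • (lam g : B G)) = ∑ g ∈ s, Rm (c g • (lam g : B G)) :=
    map_sum φ _ _
  rw [h]
  exact Finset.sum_congr rfl fun g _ => by rw [hB.Rm_smul, hB.Rm_lam]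

lemma Rm_sub (hB : Bas G) (x y : B G) : Rm (x - y) = Rm x - Rm y := by
  let φ : B G →+ B G := AddMonoidHom.mk' Rm hB.Rm_add
  exact map_sub φ _ _

lemma sum_mem' (s : Finset G) (c : G → ℂ) : (∑ g ∈ s, c g • (lam g : B G)) ∈ LG G :=
  (LG G).toStarSubalgebra.sum_mem fun g _ =>
    (LG G).toStarSubalgebra.smul_mem (lam_mem' g) _

section

variable {ω : B G →ₗ[ℂ] ℂ} (hω : Om ω) (hCPN : S_CPN) (hRO : S_RO) (hB : Bas G)

/-- the elements `π(S) W a` -/
def El {J : Type} (W : L2 G →L[ℂ] L2 (G × (J × G))) (S a : B G) :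
    L2 G →L[ℂ] L2 (G × (J × G)) := (pj J S).comp (W.comp a)

include hω hCPN hRO hB in
lemma nn_rm_fin {J : Type} {C : ℝ} {s : Finset G} {f : G → ℝ}
    {W U : L2 G →L[ℂ] L2 (G × (J × G))} (h : Lev ω C s f W U) (s' : Finset G) (c : G → ℂ)
    (S1 S2 : B G) {a b : B G} (ha : a ∈ LG G) (hb : b ∈ LG G) :
    nn ω ((El W S1 a + El W S2 b).comp (Rm (∑ g ∈ s', c g • (lam g : B G)))) ≤
      ‖Rm (∑ g ∈ s', c g • (lam g : B G))‖ * nn ω (El W S1 a + El W S2 b) := by
  obtain ⟨d, hd⟩ : ∃ d : B G, d = ∑ g ∈ s', c g • (lam g : B G) := ⟨_, rfl⟩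
  obtain ⟨R, hR⟩ : ∃ R : B (G × (J × G)), R = ∑ g ∈ s', c g • ro J g := ⟨_, rfl⟩
  obtain ⟨D, hD⟩ : ∃ D : L2 G →L[ℂ] L2 (G × (J × G)),
    D = ∑ g ∈ s', c g • (W.comp (rgt g) - (ro J g).comp W) := ⟨_, rfl⟩
  have hdm : d ∈ LG G := by rw [hd]; exact sum_mem' s' c
  have hDcp : Cp D := by
    rw [hD]
    exact Cp.sum s' fun g _ => (h.cd g).smul (c g)
  have hRm : Rm d = ∑ g ∈ s', c g • (rgt g : B G) := by rw [hd]; exact Rm_sum hB s' c
  have hRn : ‖R‖ ≤ ‖Rm d‖ := by
    rw [hR, hRm]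
    exact (hRO G J s' c).1
  have hRc : ∀ T : B G, R * pj J T = pj J T * R := by
    intro T
    rw [hR]
    exact (hRO G J s' c).2 T
  have hWR : W.comp (Rm d) = R.comp W + D := by
    rw [hRm, hR, hD]
    ext ζ : 1
    simp only [ContinuousLinearMap.comp_apply, add_apply, sum_apply, smul_apply, sub_apply,
      map_sum, map_smul, smul_sub, Finset.sum_sub_distrib]
    abel
  have hterm : ∀ (S : B G) {a : B G}, a ∈ LG G → (El W S a).comp (Rm d) =
      R.comp (El W S a) + ((pj J S).comp D).comp a := by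
    intro S a ha
    have e1 : (El W S a).comp (Rm d) = (pj J S).comp ((W.comp (Rm d)).comp a) := by
      have e2 : a * Rm d = Rm d * a := (hB.Rm_comm d hdm a ha).symm
      have e3 : (El W S a).comp (Rm d) = (pj J S).comp (W.comp (a * Rm d)) := rfl
      rw [e3, e2]
      rfl
    rw [e1, hWR, ContinuousLinearMap.add_comp, ContinuousLinearMap.comp_add]
    have e4 : (pj J S).comp ((R.comp W).comp a) = R.comp (El W S a) := by
      have e5 : (pj J S).comp ((R.comp W).comp a) = (pj J S * R).comp (W.comp a) := rfl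
      rw [e5, ← hRc]
      rfl
    rw [e4]
    rfl
  have hfin : (El W S1 a + El W S2 b).comp (Rm d) = R.comp (El W S1 a + El W S2 b) +
      (((pj J S1).comp D).comp a + ((pj J S2).comp D).comp b) := by
    rw [ContinuousLinearMap.add_comp, hterm S1 ha, hterm S2 hb, ContinuousLinearMap.comp_add]
    abel
  rw [← hd, hfin]
  refine (nn_add hω _ _).trans ?_
  have h1 := nn_comp_left hω R (El W S1 a + El W S2 b)
  have h2 := nn_add hω (((pj J S1).comp D).comp a) (((pj J S2).comp D).comp b)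
  rw [nn_cp hω hCPN (hDcp.comp (pj J S1)) a, nn_cp hω hCPN (hDcp.comp (pj J S2)) b] at h2
  have h3 : ‖R‖ * nn ω (El W S1 a + El W S2 b) ≤ ‖Rm d‖ * nn ω (El W S1 a + El W S2 b) :=
    mul_le_mul_of_nonneg_right hRn (nn_nonneg _)
  linarith

include hω hB in
lemma nn_Rm {z : B G} (hz : z ∈ LG G) : nn ω (Rm z) = ‖z (dl 1)‖ := by
  have h1 : nn ω (Rm z) ^ 2 = ‖z (dl 1)‖ ^ 2 := by
    rw [nn_sq hω]
    unfold br
    have e : (adjoint (Rm z)).comp (Rm z) = star (Rm z) * Rm z := rfl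
    rw [e, ← hB.Rm_star, ← hB.Rm_mul, hω.right _ (mul_mem' hz (star_mem' hz)),
      tau_comm hB hz (star_mem' hz), tau_self]
  have h2 := congrArg Real.sqrt h1
  rwa [Real.sqrt_sq (nn_nonneg _), Real.sqrt_sq (norm_nonneg _)] at h2

variable {J : ℕ → Type} {C : ℕ → ℝ}
  {s : ℕ → Finset G} {f : ℕ → G → ℝ} {W U : ∀ k, L2 G →L[ℂ] L2 (G × (J k × G))}
  (hS : Sq ω J C s f W U)

include hω hCPN hRO hB hS in
lemma nn_u_le (k : ℕ) {u : B G} (hu : u ∈ LG G) (hun : ‖u‖ ≤ 1)
    (hst : ∀ T : B G, ω (star u * T * u) = ω (star (Rm u) * T * Rm u))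
    (S1 S2 : B G) {a b : B G} (ha : a ∈ LG G) (hb : b ∈ LG G) :
    nn ω ((El (W k) S1 a + El (W k) S2 b).comp u) ≤ nn ω (El (W k) S1 a + El (W k) S2 b) := by
  obtain ⟨E, hE⟩ : ∃ E, E = El (W k) S1 a + El (W k) S2 b := ⟨_, rfl⟩
  rw [← hE]
  have h1 : nn ω (E.comp u) = nn ω (E.comp (Rm u)) := by
    unfold nn br
    have e1 : (adjoint (E.comp u)).comp (E.comp u) = star u * ((adjoint E).comp E) * u := by
      rw [ContinuousLinearMap.adjoint_comp]; rfl
    have e2 : (adjoint (E.comp (Rm u))).comp (E.comp (Rm u)) =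
        star (Rm u) * ((adjoint E).comp E) * Rm u := by
      rw [ContinuousLinearMap.adjoint_comp]; rfl
    rw [e1, e2, hst]
  rw [h1]
  have h2 : ∀ j, nn ω (E.comp (Rm u)) ≤
      C j * nn ω E + ‖E‖ * ‖(mf (s j) (f j) u - u) (dl 1)‖ := by
    intro j
    obtain ⟨m, hm⟩ : ∃ m, m = mf (s j) (f j) u := ⟨_, rfl⟩
    have hmm : m ∈ LG G := by rw [hm]; exact mf_mem _ _ _
    rw [← hm]
    have e1 : Rm u = Rm m - Rm (m - u) := by
      rw [← Rm_sub hB]
      congr 1
      abel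
    have e2 : E.comp (Rm u) = E.comp (Rm m) + (-1 : ℂ) • E.comp (Rm (m - u)) := by
      rw [e1, ContinuousLinearMap.comp_sub, neg_one_smul, sub_eq_add_neg]
    rw [e2]
    refine (nn_add hω _ _).trans ?_
    rw [nn_smul hω]
    have h3 : nn ω (E.comp (Rm m)) ≤ ‖Rm m‖ * nn ω E := by
      have h4 := nn_rm_fin hω hCPN hRO hB (hS.lev k) (s j)
        (fun g => ((f j g : ℝ) : ℂ) * cf u g) S1 S2 ha hb
      rw [← hE] at h4
      have e3 : (∑ g ∈ s j, (((f j g : ℝ) : ℂ) * cf u g) • (lam g : B G)) = m := by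
        rw [hm]; rfl
      rwa [e3] at h4
    have h5 : ‖Rm m‖ ≤ C j := by
      rw [hB.Rm_norm, hm]
      refine (hS.mn j u hu).trans ?_
      have := mul_le_mul_of_nonneg_left hun (hS.C0 j)
      linarith
    have h6 : ‖Rm m‖ * nn ω E ≤ C j * nn ω E := mul_le_mul_of_nonneg_right h5 (nn_nonneg _)
    have h7 := nn_comp_left hω E (Rm (m - u))
    rw [nn_Rm hω hB (sub_mem'' hmm hu)] at h7
    have h8 : ‖(-1 : ℂ)‖ = 1 := by simp
    rw [h8, one_mul]
    linarith
  have h3 : Tendsto (fun j => C j * nn ω E + ‖E‖ * ‖(mf (s j) (f j) u - u) (dl 1)‖) atTop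
      (𝓝 (1 * nn ω E + ‖E‖ * 0)) :=
    (hS.C1.mul_const _).add ((hS.dc u).const_mul _)
  rw [one_mul, mul_zero, add_zero] at h3
  exact ge_of_tendsto' h3 h2

include hω hCPN hRO hB hS in
lemma br_u (k : ℕ) {u : B G} (hu : u ∈ LG G) (hun : Un u)
    (hst : ∀ T : B G, ω (star u * T * u) = ω (star (Rm u) * T * Rm u))
    (hst' : ∀ T : B G, ω (star (star u) * T * star u) = ω (star (Rm (star u)) * T * Rm (star u)))
    (S1 S2 : B G) {a b : B G} (ha : a ∈ LG G) (hb : b ∈ LG G) :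
    br ω ((El (W k) S1 a + El (W k) S2 b).comp u) ((El (W k) S1 a + El (W k) S2 b).comp u) =
      br ω (El (W k) S1 a + El (W k) S2 b) (El (W k) S1 a + El (W k) S2 b) := by
  have hn : ‖u‖ ≤ 1 := by
    apply ContinuousLinearMap.opNorm_le_bound _ zero_le_one
    intro ζ
    rw [one_mul]
    apply le_of_eq
    have h1 : ‖u ζ‖ ^ 2 = ‖ζ‖ ^ 2 := by
      have h2 : ⟪u ζ, u ζ⟫_ℂ = ⟪ζ, ζ⟫_ℂ := by
        rw [← star_inner, ← mul_apply_eq_comp, hun.left]
        rfl
      rw [← inner_self_eq_norm_sq (𝕜 := ℂ), ← inner_self_eq_norm_sq (𝕜 := ℂ), h2]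
    have h2 := congrArg Real.sqrt h1
    rwa [Real.sqrt_sq (norm_nonneg _), Real.sqrt_sq (norm_nonneg _)] at h2
  have hn' : ‖star u‖ ≤ 1 := (norm_star' u).le.trans hn
  obtain ⟨E, hE⟩ : ∃ E, E = El (W k) S1 a + El (W k) S2 b := ⟨_, rfl⟩
  rw [← hE]
  have h1 := nn_u_le hω hCPN hRO hB hS k hu hn hst S1 S2 ha hb
  have h2 := nn_u_le hω hCPN hRO hB hS k (star_mem' hu) hn' hst' S1 S2 (mul_mem' ha hu)
    (mul_mem' hb hu)
  have e1 : El (W k) S1 (a * u) + El (W k) S2 (b * u) = E.comp u := by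
    rw [hE, ContinuousLinearMap.add_comp]
    rfl
  rw [e1] at h2
  rw [← hE] at h1
  have e2 : (E.comp u).comp (star u) = E := by
    have : (E.comp u).comp (star u) = E.comp (u * star u) := rfl
    rw [this, hun.right]
    exact ContinuousLinearMap.comp_id _
  rw [e2] at h2
  have h3 : nn ω (E.comp u) = nn ω E := le_antisymm h1 h2
  rw [br_self_eq hω, br_self_eq hω E, ← nn_sq hω, ← nn_sq hω, h3]

include hω hCPN hRO hB hS in
lemma br_uv (k : ℕ) {u : B G} (hu : u ∈ LG G) (hun : Un u)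
    (hst : ∀ T : B G, ω (star u * T * u) = ω (star (Rm u) * T * Rm u))
    (hst' : ∀ T : B G, ω (star (star u) * T * star u) = ω (star (Rm (star u)) * T * Rm (star u)))
    (T : B G) {a b : B G} (ha : a ∈ LG G) (hb : b ∈ LG G) :
    br ω ((El (W k) 1 a).comp u) ((El (W k) T b).comp u) = br ω (El (W k) 1 a) (El (W k) T b) := by
  have hz : El (W k) 0 b = 0 := by
    unfold El
    rw [pj_zero, ContinuousLinearMap.zero_comp]
  have hz' : El (W k) 0 a = 0 := by
    unfold El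
    rw [pj_zero, ContinuousLinearMap.zero_comp]
  have hI : El (W k) (Complex.I • T) b = Complex.I • El (W k) T b := by
    unfold El
    rw [pj_smul, ContinuousLinearMap.smul_comp]
  have k1 := br_u hω hCPN hRO hB hS k hu hun hst hst' 1 0 ha hb
  have k2 := br_u hω hCPN hRO hB hS k hu hun hst hst' 0 T ha hb
  have k3 := br_u hω hCPN hRO hB hS k hu hun hst hst' 1 T ha hb
  have k4 := br_u hω hCPN hRO hB hS k hu hun hst hst' 1 (Complex.I • T) ha hb
  rw [hz, add_zero] at k1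
  rw [hz', zero_add] at k2
  rw [hI] at k4
  generalize El (W k) 1 a = E at k1 k2 k3 k4 ⊢
  generalize El (W k) T b = F at k1 k2 k3 k4 ⊢
  rw [ContinuousLinearMap.add_comp, br_add_left, br_add_right, br_add_right, br_add_left,
    br_add_right, br_add_right, k1, k2] at k3
  rw [ContinuousLinearMap.add_comp, ContinuousLinearMap.smul_comp, br_add_left, br_add_right,
    br_add_right, br_add_left, br_add_right, br_add_right, br_smul_left, br_smul_right,
    br_smul_right, br_smul_left, br_smul_left, br_smul_right, br_smul_right, br_smul_left,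
    Complex.conj_I, k1, k2] at k4
  have hI2 : Complex.I * Complex.I = -1 := Complex.I_mul_I
  have k5 : Complex.I * (br ω (E.comp u) (F.comp u) - br ω E F) -
      Complex.I * (br ω (F.comp u) (E.comp u) - br ω F E) = 0 := by
    linear_combination k4
  have k6 : (br ω (E.comp u) (F.comp u) - br ω E F) +
      (br ω (F.comp u) (E.comp u) - br ω F E) = 0 := by
    linear_combination k3
  have k7 : (br ω (E.comp u) (F.comp u) - br ω E F) -
      (br ω (F.comp u) (E.comp u) - br ω F E) = 0 := by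
    have : Complex.I * ((br ω (E.comp u) (F.comp u) - br ω E F) -
      (br ω (F.comp u) (E.comp u) - br ω F E)) = 0 := by
      linear_combination k5
    exact (mul_eq_zero.mp this).resolve_left Complex.I_ne_zero
  have k8 : br ω (E.comp u) (F.comp u) - br ω E F = 0 := by
    linear_combination (k6 + k7) / 2
  exact sub_eq_zero.mp k8

end

end

end Pool.Agent.N693.SSD
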