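import Pool.Agent.N571.SS.D.Stm

/-!
# Project SS/D, the final limit argument (FIN): statements of the pieces (helper693)
-/

set_option autoImplicit false

namespace Pool.Agent.N693.SSD

open Filter Topology
open scoped InnerProductSpace ComplexOrder
open Pool.Agent.H494R3.GT (L2 dl)
open Pool.Agent.N557.QW (lam rgt LG LK cf rc)
open Pool.Agent.N571.SS Pool.Agent.N571.SS.D
open ContinuousLinearMap (adjoint)

noncomputable section

/-- `E` is small on the vectors which vanish on a large finite set -/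
def Cp {X H : Type} [NormedAddCommGroup H] [InnerProductSpace ℂ H] (E : L2 X →L[ℂ] H) : Prop :=
  ∀ ε : ℝ, 0 < ε → ∃ F : Finset X, ∀ ζ : L2 X, (∀ g ∈ F, ζ g = 0) → ‖E ζ‖ ≤ ε * ‖ζ‖

variable {G : Type} [Group G]

/-- the multiplier `x ↦ ∑ f(g) x(g) λ_g` -/
def mf (s : Finset G) (f : G → ℝ) (x : B G) : B G := ∑ g ∈ s, ((f g : ℂ) * cf x g) • lam g

/-- `T ⊗ 1` on `ℓ²(G × (J × G))` -/
def pj (J : Type) (T : B G) : B (G × (J × G)) :=
  Pool.Agent.H812R3.KP.amp (Equiv.refl (G × (J × G))) T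

/-- `(h, (j, k)) ↦ (h, (j, k t))` -/
def rp (J : Type) (t : G) : Equiv.Perm (G × (J × G)) :=
  (Equiv.refl G).prodCongr ((Equiv.refl J).prodCongr (Equiv.mulRight t))

/-- right translation of the last coordinate -/
def ro (J : Type) (t : G) : B (G × (J × G)) := Pool.Agent.H812R3.KP.perm (rp J t)

/-- the operator `W dl x = ∑ √(μ(x)(h)) α_j(h⁻¹) dl (h, (j, h⁻¹ x))` -/
structure Wt {J : Type} (μ : G → (G →₀ ℝ)) (α : J → G → ℝ) (C : ℝ)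
    (W : L2 G →L[ℂ] L2 (G × (J × G))) : Prop where
  ap : ∀ (ζ : L2 G) (h : G) (j : J) (k : G),
    (W ζ) (h, (j, k)) = ((α j h⁻¹ * √(μ (h * k) h) : ℝ) : ℂ) * ζ (h * k)
  bd : ∀ ζ : L2 G, ‖W ζ‖ ^ 2 ≤ C * ‖ζ‖ ^ 2

/-- the coefficients of a bounded family of vectors -/
def Bd {J : Type} (α : J → G → ℝ) (C : ℝ) : Prop :=
  ∀ h, Summable (fun j => α j h ^ 2) ∧ ∑' j, α j h ^ 2 ≤ C

/-- properties of the limit functional -/
structure Om (ω : B G →ₗ[ℂ] ℂ) : Prop where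
  nonneg : ∀ T, 0 ≤ ω (star T * T)
  one : ω 1 = 1
  adj : ∀ T, ω (star T) = (starRingEnd ℂ) (ω T)
  norm : ∀ T, ‖ω T‖ ≤ ‖T‖
  left : ∀ x ∈ LG G, ω x = tau x
  right : ∀ x ∈ LG G, ω (Rm x) = tau x
  null : ∀ g, ω (Pg g) = 0

/-- WEX: existence of `W`. -/
def S_WEX : Prop :=
  ∀ (G : Type) [Group G] (J : Type) (μ : G → (G →₀ ℝ)) (α : J → G → ℝ) (C : ℝ), 0 ≤ C →
    (∀ x, Pr (μ x)) → Bd α C → ∃ W : L2 G →L[ℂ] L2 (G × (J × G)), Wt μ α C W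

/-- OPD: `W` almost commutes with the right translations. -/
def S_OPD : Prop :=
  ∀ (G : Type) [Group G] (J : Type) (μ : G → (G →₀ ℝ)) (α : J → G → ℝ) (C : ℝ), 0 ≤ C →
    (∀ x, Pr (μ x)) → Bd α C →
    (∀ t : G, Tendsto (fun x => l1 (μ (1 * x * t) - tr 1 (μ x))) cofinite (𝓝 0)) →
    ∀ W : L2 G →L[ℂ] L2 (G × (J × G)), Wt μ α C W →
    ∀ t : G, Cp (W.comp (rgt t) - (ro J t).comp W)

/-- OPC: compression of the left multiplications. -/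
def S_OPC : Prop :=
  ∀ (G : Type) [Group G] (J : Type) (μ : G → (G →₀ ℝ)) (α β : J → G → ℝ) (C : ℝ) (s : Finset G)
    (f : G → ℝ), 0 ≤ C → (∀ x, Pr (μ x)) → Bd α C → Bd β C →
    (∀ x y, HasSum (fun j => α j x * β j y) (f (y⁻¹ * x))) → (∀ g, g ∉ s → f g = 0) →
    (∀ g : G, Tendsto (fun x => l1 (μ (g * x * 1) - tr g (μ x))) cofinite (𝓝 0)) →
    ∀ W U : L2 G →L[ℂ] L2 (G × (J × G)), Wt μ α C W → Wt μ β C U →
    ∀ x ∈ LG G, Cp ((adjoint U).comp ((pj J x).comp W) - mf s f x)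

/-- OM: the limit functional. -/
def S_OM : Prop :=
  ∀ (G : Type) [Group G], Bas G → ∀ ξ : ℕ → L2 (G × G), Vec ξ →
    ∃ ω : B G →ₗ[ℂ] ℂ, Om ω ∧ ∀ u, Inv ξ u →
      ∀ T : B G, ω (star u * T * u) = ω (star (Rm u) * T * Rm u)

/-- DC: dominated convergence. -/
def S_DC : Prop :=
  ∀ (G : Type) [Group G] (f : ℕ → G → ℝ) (s : ℕ → Finset G), (∀ k g, |f k g| ≤ 2) →
    (∀ k g, g ∉ s k → f k g = 0) → (∀ g, Tendsto (fun k => f k g) atTop (𝓝 1)) →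
    ∀ x : B G, Tendsto (fun k => ‖(mf (s k) (f k) x - x) (dl 1)‖) atTop (𝓝 0)

/-- CPN: compact operators are null. -/
def S_CPN : Prop :=
  ∀ (G : Type) [Group G] (ω : B G →ₗ[ℂ] ℂ), Om ω →
    ∀ (H : Type) [NormedAddCommGroup H] [InnerProductSpace ℂ H] [CompleteSpace H]
      (E : L2 G →L[ℂ] H), Cp E → ∀ b : B G, ω (star b * (adjoint E).comp E * b) = 0

/-- SEQ: the sequence of multipliers and their coordinates. -/
def S_SEQ : Prop :=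
  ∀ (G : Type) [Group G] [Countable G], CMAP G → ∃ (f : ℕ → G → ℝ) (s : ℕ → Finset G),
    (∀ k g, g ∉ s k → f k g = 0) ∧ (∀ g, Tendsto (fun k => f k g) atTop (𝓝 1)) ∧
    (∀ k g, |f k g| ≤ 2) ∧ (∀ k : ℕ, HS (f k) (1 + 1 / ((k : ℝ) + 1))) ∧
    ∀ k : ℕ, ∃ (J : Type) (α β : J → G → ℝ), Bd α (1 + 1 / ((k : ℝ) + 1)) ∧
      Bd β (1 + 1 / ((k : ℝ) + 1)) ∧ ∀ x y, HasSum (fun j => α j x * β j y) (f k (y⁻¹ * x))

/-- MFN: the norm of the multiplier. -/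
def S_MFN : Prop :=
  ∀ (G : Type) [Group G] (f : G → ℝ) (s : Finset G) (C : ℝ), (∀ g, g ∉ s → f g = 0) → HS f C →
    ∀ x ∈ LG G, ‖mf s f x‖ ≤ C * ‖x‖

/-- RO: properties of `ro` and `pj`. -/
def S_RO : Prop :=
  ∀ (G : Type) [Group G] (J : Type) (s : Finset G) (c : G → ℂ),
    ‖∑ g ∈ s, c g • ro J g‖ ≤ ‖∑ g ∈ s, c g • rgt g‖ ∧
    ∀ T : B G, (∑ g ∈ s, c g • ro J g) * pj J T = pj J T * ∑ g ∈ s, c g • ro J g

end

end Pool.Agent.N693.SSD
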